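import Mathlib
import Pool.Agent.QAA.Defs

/-!
AA2 = MP_f992e4_an: exponent 2 in the quasi-polynomial Aaronson-Ambainis bound, definitions.

Overview: /team-store/aa2_blueprint.md. The process: every coordinate which is still cold is
revealed with probability `1/(n+1)` per step (one coordinate per step), and a coordinate is frozen
(never revealed any more) as soon as its influence in the restricted function reaches the current
threshold. The state is the restricted function together with the set of cold coordinates.
-/

set_option linter.dupNamespace false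

namespace Pool.Agent.AA2

open Finset Pool.Agent.Helper11.Cube Pool.Agent.Helper11.AA Pool.Agent.SUB Pool.Agent.QAA

variable {n : ℕ}

/-- The second order influence `E (D_a D_w f)^2`. -/
noncomputable def I2 (f : Cube n → ℝ) (a w : Fin n) : ℝ :=
  ex (fun x => discreteDeriv a (discreteDeriv w f) x ^ 2)

/-- The restriction of `f` to `x_a = u`. -/
def rs (a : Fin n) (u : ℤˣ) (f : Cube n → ℝ) : Cube n → ℝ := fun x => f (Function.update x a u)

/-- The coordinates of `C` which are near `w` and have a large bias under `(D_w f)^2`. -/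
noncomputable def Nr (d : ℕ) (β : ℝ) (f : Cube n → ℝ) (C : Finset (Fin n)) (w : Fin n) :
    Finset (Fin n) :=
  C.filter (fun a => β ≤ |bw f w a| ∧ Iw f a ≤ 4 * (d : ℝ) * Iw f w)

/-- The entropy carried by the near coordinates. -/
noncomputable def yN (d : ℕ) (β : ℝ) (f : Cube n → ℝ) (C : Finset (Fin n)) (w : Fin n) : ℝ :=
  ∑ a ∈ Nr d β f C w, KL (bw f w a)

/-- Functionals of the state (restricted function, set of cold coordinates). -/
abbrev Fn (n : ℕ) := (Cube n → ℝ) → Finset (Fin n) → ℝ

/-- Freeze the coordinates with influence at least `θ`. -/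
noncomputable def frz (θ : ℝ) (f : Cube n → ℝ) (C : Finset (Fin n)) : Finset (Fin n) :=
  C.filter (fun w => Iw f w < θ)

/-- One random move: with probability `1/(n+1)` nothing happens; every coordinate `a` is chosen with
probability `1/(n+1)` and revealed if it is cold. -/
noncomputable def mv (Φ : Fn n) : Fn n := fun f C =>
  (Φ f C + ∑ a : Fin n, if a ∈ C then
    (Φ (rs a 1 f) (C.erase a) + Φ (rs a (-1) f) (C.erase a)) / 2 else Φ f C) / ((n : ℝ) + 1)

/-- One step of the process: a move followed by freezing at the threshold `θ`. -/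
noncomputable def stp (θ : ℝ) (Φ : Fn n) : Fn n := mv (fun f C => Φ f (frz θ f C))

/-- The expectation of the functional `Φ` after `N` steps with thresholds `θ 1, ..., θ N`. -/
noncomputable def run (θ : ℕ → ℝ) : ℕ → Fn n → Fn n
  | 0, Φ => Φ
  | k + 1, Φ => run θ k (stp (θ (k + 1)) Φ)

/-- The states which can occur: `f` is bounded of degree at most `d` and all cold coordinates have
influence below the threshold. -/
def Vd (d : ℕ) (θ : ℝ) (f : Cube n → ℝ) (C : Finset (Fin n)) : Prop :=
  Bdd d f ∧ ∀ w ∈ C, Iw f w < θ

/-- Influence outside the cold set. -/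
noncomputable def FO : Fn n := fun f C => ∑ w ∈ Cᶜ, Iw f w

/-- Influence in the cold set. -/
noncomputable def FI : Fn n := fun f C => ∑ w ∈ C, Iw f w

/-- Sum of the squared influences in the cold set. -/
noncomputable def FS : Fn n := fun f C => ∑ w ∈ C, Iw f w ^ 2

/-- Sum of the second order influences in the cold set. -/
noncomputable def FP : Fn n := fun f C => ∑ w ∈ C, ∑ a ∈ C, I2 f a w

/-- Growth term of the squared influences. -/
noncomputable def FX : Fn n := fun f C => ∑ w ∈ C, Iw f w ^ 2 * ∑ a ∈ C, bw f w a ^ 2

/-- `λ = (n+1)/n`. -/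
noncomputable def lam (n : ℕ) : ℝ := ((n : ℝ) + 1) / n

/-- The error term of the local inequality. -/
noncomputable def Er (d : ℕ) (β : ℝ) (T : ℕ) : ℝ :=
  8 * (d : ℝ) ^ 4 * β + 46080 * (d : ℝ) ^ 4 / β ^ 4 * Real.exp (-((T : ℝ) / 2))

/-- The thresholds. -/
noncomputable def th (n : ℕ) (θ0 S : ℝ) (k : ℕ) : ℝ := θ0 * (1 + lam n * S / ((n : ℝ) + 1)) ^ k

end Pool.Agent.AA2
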