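import Mathlib
import Pool.Agent.AA2.Defs
import Pool.Agent.QAA.Pop
import Pool.Agent.QAA.Lap

/-!
AA2 module RS: restrictions of one coordinate and second order influences.

* `bdd_rs`: `bdd_update`.
* `Iw_rs_self`, `Iw_rs`: `Iw_restr_self`, `Iw_restr` of `QAA.Lap` (unfold `rs`).
* `I2_self`: `deriv_self`. `I2_nonneg`: `ex_nonneg`. `I2_comm`: `deriv_comm`.
* `I2_rs_self`: if `c = a` or `c = w` then `D_a D_w (f|_{x_c=u}) = 0` (`deriv_restr_self`; for `c = w`
  directly, for `c = a` after `deriv_comm`).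
* `I2_rs`: for `c ≠ a`, `c ≠ w`: `D_a D_w (f|_{x_c=u}) x = D_a D_w f (update x c u)` (`deriv_restr`
  twice, or unfold and `Function.update_comm`), then `ex_update`.
* `sum_I2_le`: `I2 f a w = ex ((D_w (D_a f))^2)` (`deriv_comm`), `sum_ex_deriv_sq_le` for
  `g = D_a f` (`bdd_deriv`); `sum over w in W ≤ sum over univ` since the terms are nonnegative.
* `sum_bw_sq`: `bw_sq_le` (`bw^2 * Iw ≤ 4 * I2`), sum, `sum_I2_le`.
-/

set_option linter.dupNamespace false

namespace Pool.Agent.AA2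

open Finset Pool.Agent.Helper11.Cube Pool.Agent.Helper11.AA Pool.Agent.SUB Pool.Agent.QAA

variable {n d : ℕ}

lemma bdd_rs {f : Cube n → ℝ} (hf : Bdd d f) (a : Fin n) (u : ℤˣ) : Bdd d (rs a u f) :=
  bdd_update hf a u

lemma Iw_rs_self (f : Cube n → ℝ) (a : Fin n) (u : ℤˣ) : Iw (rs a u f) a = 0 :=
  Iw_restr_self f a u

lemma Iw_rs (f : Cube n → ℝ) {a w : Fin n} (h : w ≠ a) (u : ℤˣ) :
    Iw (rs a u f) w = Iw f w * (1 + ((u : ℤ) : ℝ) * bw f w a) :=
  Iw_restr f h u

lemma I2_nonneg (f : Cube n → ℝ) (a w : Fin n) : 0 ≤ I2 f a w :=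
  ex_nonneg (fun x => sq_nonneg _)

lemma I2_self (f : Cube n → ℝ) (w : Fin n) : I2 f w w = 0 := by
  unfold I2
  have h : (fun x => discreteDeriv w (discreteDeriv w f) x ^ 2) = fun _ => (0 : ℝ) := by
    funext x
    rw [deriv_self]
    ring
  rw [h, ex_const]

lemma I2_comm (f : Cube n → ℝ) (a w : Fin n) : I2 f a w = I2 f w a := by
  unfold I2
  congr 1
  funext x
  rw [deriv_comm]

lemma I2_rs_self (f : Cube n → ℝ) (a w : Fin n) (u : ℤˣ) :
    I2 (rs a u f) a w = 0 ∧ I2 (rs a u f) w a = 0 := by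
  have h1 : I2 (rs a u f) w a = 0 := by
    unfold I2
    have h0 : discreteDeriv a (rs a u f) = fun _ => (0 : ℝ) := by
      funext x
      exact deriv_restr_self a u f x
    have h : (fun x => discreteDeriv w (discreteDeriv a (rs a u f)) x ^ 2)
        = fun _ => (0 : ℝ) := by
      funext x
      rw [h0]
      unfold discreteDeriv
      simp
    rw [h, ex_const]
  exact ⟨by rw [I2_comm]; exact h1, h1⟩

lemma I2_rs (f : Cube n → ℝ) {a w c : Fin n} (ha : c ≠ a) (hw : c ≠ w) :
    (I2 (rs c 1 f) a w + I2 (rs c (-1) f) a w) / 2 = I2 f a w := by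
  have h : ∀ u : ℤˣ, ∀ x, discreteDeriv a (discreteDeriv w (rs c u f)) x
      = discreteDeriv a (discreteDeriv w f) (Function.update x c u) := by
    intro u x
    have h1 : discreteDeriv w (rs c u f) = fun z => discreteDeriv w f (Function.update z c u) := by
      funext z
      exact deriv_restr hw.symm u f z
    rw [h1]
    exact deriv_restr ha.symm u (discreteDeriv w f) x
  have h2 := ex_update c (fun x => discreteDeriv a (discreteDeriv w f) x ^ 2)
  unfold I2
  rw [← h2]
  have h3 : (fun x => (discreteDeriv a (discreteDeriv w f) (Function.update x c 1) ^ 2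
      + discreteDeriv a (discreteDeriv w f) (Function.update x c (-1)) ^ 2) / 2)
      = fun x => (1 / 2 : ℝ) * (discreteDeriv a (discreteDeriv w (rs c 1 f)) x ^ 2
        + discreteDeriv a (discreteDeriv w (rs c (-1) f)) x ^ 2) := by
    funext x
    rw [h, h]
    ring
  rw [h3, ex_mul_left', ex_add']
  ring

lemma sum_I2_le {f : Cube n → ℝ} (hf : Bdd d f) (W : Finset (Fin n)) (a : Fin n) :
    ∑ w ∈ W, I2 f a w ≤ (d : ℝ) * Iw f a := by
  calc ∑ w ∈ W, I2 f a w ≤ ∑ w, I2 f a w :=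
        Finset.sum_le_sum_of_subset_of_nonneg (Finset.subset_univ W) (fun w _ _ => I2_nonneg f a w)
    _ = ∑ w, ex (fun x => discreteDeriv w (discreteDeriv a f) x ^ 2) := by
        apply Finset.sum_congr rfl
        intro w _
        rw [I2_comm]
        rfl
    _ ≤ (d : ℝ) * ex (fun x => discreteDeriv a f x ^ 2) := sum_ex_deriv_sq_le (bdd_deriv hf a).1
    _ = (d : ℝ) * Iw f a := rfl

lemma sum_bw_sq {f : Cube n → ℝ} (hf : Bdd d f) (W : Finset (Fin n)) (a : Fin n) :
    ∑ w ∈ W, Iw f w * bw f w a ^ 2 ≤ 4 * (d : ℝ) * Iw f a := by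
  calc ∑ w ∈ W, Iw f w * bw f w a ^ 2 ≤ ∑ w ∈ W, 4 * I2 f a w := by
        apply Finset.sum_le_sum
        intro w _
        have h := bw_sq_le f w a
        rw [mul_comm]
        exact h
    _ = 4 * ∑ w ∈ W, I2 f a w := (Finset.mul_sum _ _ _).symm
    _ ≤ 4 * ((d : ℝ) * Iw f a) := by
        have := sum_I2_le hf W a
        linarith
    _ = 4 * (d : ℝ) * Iw f a := by ring

end Pool.Agent.AA2
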