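import Mathlib
import Pool.Agent.AA2.Rs

/-!
AA2 module FAR: the far coordinates.

For `4 d Iw f w < Iw f a`: `Iw f w ^ 2 * b^2 ≤ (Iw f a/(4 d)) * (Iw f w * b^2)`, `b = bw f w a`. Exchange
the sums and use `sum_bw_sq`: `∑_{w ∈ C} Iw f w * b^2 ≤ 4 d Iw f a`. Total `≤ ∑_{a∈C} Iw f a ^ 2`.
-/

set_option linter.dupNamespace false

namespace Pool.Agent.AA2

open Finset Pool.Agent.Helper11.Cube Pool.Agent.Helper11.AA Pool.Agent.SUB Pool.Agent.QAA

variable {n d : ℕ}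

theorem far_part (hd : 1 ≤ d) {f : Cube n → ℝ} (hf : Bdd d f) (C : Finset (Fin n)) :
    ∑ w ∈ C, Iw f w ^ 2 * ∑ a ∈ C.filter (fun a => 4 * (d : ℝ) * Iw f w < Iw f a), bw f w a ^ 2
      ≤ ∑ w ∈ C, Iw f w ^ 2 := by
  have hd0 : (0 : ℝ) < 4 * d := by
    have : (0 : ℝ) < d := by exact_mod_cast hd
    linarith
  have h1 : ∀ w ∈ C, Iw f w ^ 2 *
      ∑ a ∈ C.filter (fun a => 4 * (d : ℝ) * Iw f w < Iw f a), bw f w a ^ 2 ≤
      ∑ a ∈ C, Iw f a / (4 * d) * (Iw f w * bw f w a ^ 2) := by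
    intro w _
    rw [Finset.sum_filter, Finset.mul_sum]
    refine Finset.sum_le_sum fun a _ => ?_
    have e1 := Iw_nonneg f w
    have e2 := Iw_nonneg f a
    have e3 : 0 ≤ bw f w a ^ 2 := sq_nonneg _
    split_ifs with h
    · have e4 : Iw f w ≤ Iw f a / (4 * d) := by
        rw [le_div_iff₀ hd0]
        linarith
      have e5 : 0 ≤ Iw f w * bw f w a ^ 2 := mul_nonneg e1 e3
      calc Iw f w ^ 2 * bw f w a ^ 2 = Iw f w * (Iw f w * bw f w a ^ 2) := by ring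
        _ ≤ Iw f a / (4 * d) * (Iw f w * bw f w a ^ 2) := mul_le_mul_of_nonneg_right e4 e5
    · rw [mul_zero]
      exact mul_nonneg (div_nonneg e2 hd0.le) (mul_nonneg e1 e3)
  refine (Finset.sum_le_sum h1).trans ?_
  rw [Finset.sum_comm]
  refine Finset.sum_le_sum fun a _ => ?_
  rw [← Finset.mul_sum]
  have h2 := sum_bw_sq hf C a
  have e2 := Iw_nonneg f a
  refine (mul_le_mul_of_nonneg_left h2 (div_nonneg e2 hd0.le)).trans (le_of_eq ?_)
  field_simp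

end Pool.Agent.AA2
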