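import Mathlib
import Pool.Agent.QAA.EPlant
import Pool.Agent.SUB.Ent

/-!
AA2 module LOW: planting gains the entropy.

With `m = ∑_{w∈W} Iw f w`, unfold `EP`: the right side is
`(1/m) ∑_{w∈W} ex_x (gs f w x * ex_v (gs f w (mix (C w) x v)))`. For fixed `w` let `h = gs f w`,
`φ x = ex_v (h (mix (C w) x v))`, which satisfies `φ (mix (C w) x z) = φ x`
(`mix S (mix S x z) v = mix S x v`), so by `ex_mix_mul` (`SUB.Ex`)
`ex (h x * φ x) = ex (φ x * φ x) = ex (φ x ^ 2) ≥ exp (∑_{a∈C w} KL (bw f w a)) * Iw f w ^ 2`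
(`exp_sum_KL_le` in `SUB.Ent`; `bw f w a = bias (gs f w) a`), `≥ exp s * (Iw f w * ℓ)`. Sum over `w`
and divide by `m`.
-/

set_option linter.dupNamespace false

namespace Pool.Agent.AA2

open Finset Pool.Agent.Helper11.Cube Pool.Agent.Helper11.AA Pool.Agent.SUB Pool.Agent.QAA

variable {n d : ℕ}

theorem plant_ge {f : Cube n → ℝ} {W : Finset (Fin n)} {C : Fin n → Finset (Fin n)} {s l : ℝ}
    (hl : 0 < l) (hm : 0 < ∑ w ∈ W, Iw f w) (hW : ∀ w ∈ W, l ≤ Iw f w)
    (hs : ∀ w ∈ W, s ≤ ∑ a ∈ C w, KL (bw f w a)) :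
    Real.exp s * l ≤ EP f W (fun w x => ex (fun v => gs f w (mix (C w) x v))) := by
  unfold EP
  rw [le_div_iff₀ hm, Finset.mul_sum]
  refine Finset.sum_le_sum fun w hw => ?_
  have hI : 0 < Iw f w := hl.trans_le (hW w hw)
  have h1 := exp_sum_KL_le (h := gs f w) (fun x => gs_nonneg f w x) hI (C w)
  have h2 : ∀ x z, ex (fun v => gs f w (mix (C w) (mix (C w) x z) v)) =
      ex (fun v => gs f w (mix (C w) x v)) := by
    intro x z
    congr 1
    ext v
    congr 1
    ext i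
    unfold mix
    split_ifs <;> rfl
  have h3 := ex_mix_mul (C w) (gs f w) (fun x => ex (fun v => gs f w (mix (C w) x v))) h2
  simp only at h3
  rw [← h3]
  have h4 : (fun x => ex (fun z => gs f w (mix (C w) x z)) *
      ex (fun v => gs f w (mix (C w) x v))) =
      (fun x => ex (fun z => gs f w (mix (C w) x z)) ^ 2) := by
    ext x
    ring
  rw [h4]
  refine le_trans ?_ h1
  have h5 : Real.exp s ≤ Real.exp (∑ a ∈ C w, KL (bias (gs f w) a)) := Real.exp_le_exp.2 (hs w hw)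
  have h6 : l * Iw f w ≤ ex (gs f w) ^ 2 := by
    rw [pow_two]
    exact mul_le_mul_of_nonneg_right (hW w hw) hI.le
  calc Real.exp s * l * Iw f w = Real.exp s * (l * Iw f w) := by ring
    _ ≤ _ := mul_le_mul h5 h6 (by positivity) (Real.exp_pos _).le

end Pool.Agent.AA2
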