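import Mathlib
import Pool.Agent.QAA.EInsens

/-!
AA2 module WEAK: the weak type bound for the pivots created by a random planting.

Let `m = ∑_{w∈W} Iw f w`, `C' w = insert w (C w)`. Fix `v`. For `w` and `x` put
`g = discreteDeriv w f (mix (C w) x v)`, `|g| ≤ 1` (`bdd_deriv`). For a sign `u` let
`y_u = Function.update x w u`; then `mix (C' w) y_u v = Function.update (mix (C w) x v) w u`, so
`f (mix (C' w) y_1 v) - f (mix (C' w) y_{-1} v) = 2 g`; choose `u = u(w,x)` with
`|g| ≤ |f (mix (C' w) (y_u) v) - f v|` (if both were `< |g|` the difference would be `< 2|g|`).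
`key`: apply `insens_tail` (`QAA.Insens`) with `Ω = Fin n × Cube n`,
`μ (w,x) = if w ∈ W then EPLq f W (w,x) else 0` (total mass 1: `EPL_tot`; see the proof of
`EP_insens` in `QAA.EInsens`, which does the same with `insens`), `C (w,x) = C' w`,
`y (w,x) = update x w (u(w,x))`, `K := K + 1`, `δ = (1/2)^(i+1)`:
`EP f W (fun w x => if (1/2)^(i+1) < |D_w f (mix (C w) x v)| then 1 else 0) ≤ 4 d^2 2^(i+1) (K+1) π`.
Pointwise (`|g| ≤ 1`): `g^2 ≤ (1/4)^(I+1) + ∑_{i ≤ I} (1/4)^i 1[(1/2)^(i+1) < |g|]` (if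
`(1/2)^(i+1) < |g| ≤ (1/2)^i` the i-th term is `≥ g^2`; if `|g| ≤ (1/2)^(I+1)` use the first term).
So `EP (gs ..) ≤ (1/4)^(I+1) + ∑_{i≤I} (1/4)^i 4 d^2 2^(i+1) (K+1) π
 ≤ (1/4)^(I+1) + 16 d^2 (K+1) π` (geometric sum `∑ (1/2)^i ≤ 2`), for every `I`; let `I → ∞`
(`le_of_forall_pos_le_add` and `exists_pow_lt_of_lt_one`).
-/

set_option linter.dupNamespace false

namespace Pool.Agent.AA2

open Finset Pool.Agent.Helper11.Cube Pool.Agent.Helper11.AA Pool.Agent.SUB Pool.Agent.QAA

variable {n d : ℕ}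

lemma mix_insert_update (S : Finset (Fin n)) (w : Fin n) (x v : Cube n) (u : ℤˣ) :
    mix (insert w S) (Function.update x w u) v = Function.update (mix S x v) w u := by
  funext i
  unfold mix
  by_cases h : i = w
  · subst h
    rw [if_pos (Finset.mem_insert_self _ _), Function.update_self, Function.update_self]
  · rw [Function.update_of_ne h, Function.update_of_ne h]
    simp only [Finset.mem_insert, h, false_or]

lemma exists_sign (f : Cube n → ℝ) (w : Fin n) (y v : Cube n) :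
    ∃ u : ℤˣ, |discreteDeriv w f y| ≤ |f (Function.update y w u) - f v| := by
  by_contra h
  push Not at h
  have h1 := h 1
  have h2 := h (-1)
  have h3 : 2 * |discreteDeriv w f y| =
      |f (Function.update y w 1) - f (Function.update y w (-1))| := by
    unfold discreteDeriv
    rw [abs_div, abs_of_pos (show (0 : ℝ) < 2 by norm_num)]
    ring
  have h4 := abs_sub_le (f (Function.update y w 1)) (f v) (f (Function.update y w (-1)))
  rw [abs_sub_comm (f v)] at h4
  linarith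

lemma weak_tail {f : Cube n → ℝ} (hf : Bdd d f) {W : Finset (Fin n)}
    {C : Fin n → Finset (Fin n)} {K π : ℝ} (hm : 0 < ∑ w ∈ W, Iw f w) (hK0 : 0 ≤ K)
    (hπ0 : 0 ≤ π) (hK : ∀ w ∈ W, ((C w).card : ℝ) ≤ K)
    (hπ : ∀ a, ∑ w ∈ W.filter (fun w => a ∈ insert w (C w)), Iw f w ≤ π * ∑ w ∈ W, Iw f w)
    {δ : ℝ} (hδ : 0 < δ) (v : Cube n) :
    EP f W (fun w x => if δ < |discreteDeriv w f (mix (C w) x v)| then 1 else 0)
      ≤ 4 * (d : ℝ) ^ 2 / δ * (K + 1) * π := by
  classical
  have hsum : ∀ F : Fin n × Cube n → ℝ,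
      ∑ z, (if z.1 ∈ W then EPLq f W z else 0) * F z =
        ∑ z ∈ W ×ˢ (univ : Finset (Cube n)), EPLq f W z * F z := by
    intro F
    have h1 : W ×ˢ (univ : Finset (Cube n)) = univ.filter fun z : Fin n × Cube n => z.1 ∈ W := by
      ext z
      simp
    rw [h1, Finset.sum_filter]
    refine Finset.sum_congr rfl fun z _ => ?_
    split_ifs <;> simp
  have hμ : ∀ z : Fin n × Cube n, 0 ≤ (if z.1 ∈ W then EPLq f W z else 0) := by
    intro z
    split_ifs
    · exact EPLq_nonneg z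
    · exact le_refl _
  choose u hu using fun z : Fin n × Cube n => exists_sign f z.1 (mix (C z.1) z.2 v) v
  have hI := insens_tail (Ω := Fin n × Cube n) (fun z => if z.1 ∈ W then EPLq f W z else 0) hμ
    (fun z => insert z.1 (C z.1)) (fun z => Function.update z.2 z.1 (u z)) (K := K + 1) (π := π)
    (by linarith) hπ0
    (fun z hz => by
      by_cases hzW : z.1 ∈ W
      · have h1 := hK _ hzW
        have h2 := Finset.card_insert_le z.1 (C z.1)
        have h3 : ((insert z.1 (C z.1)).card : ℝ) ≤ (C z.1).card + 1 := by exact_mod_cast h2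
        linarith
      · rw [if_neg hzW] at hz
        exact absurd hz (lt_irrefl _))
    (fun a => by
      have h1 := hsum fun z => if a ∈ insert z.1 (C z.1) then 1 else 0
      rw [Finset.sum_filter]
      have h2 : ∑ z : Fin n × Cube n, (if a ∈ insert z.1 (C z.1) then
          (if z.1 ∈ W then EPLq f W z else 0) else 0) =
          ∑ z, (if z.1 ∈ W then EPLq f W z else 0) *
            (if a ∈ insert z.1 (C z.1) then 1 else 0) := by
        refine Finset.sum_congr rfl fun z _ => ?_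
        split_ifs <;> simp
      rw [h2, h1, Finset.sum_product]
      have h3 : ∀ w ∈ W, ∑ x, EPLq f W (w, x) * (if a ∈ insert w (C w) then (1 : ℝ) else 0) =
          (if a ∈ insert w (C w) then Iw f w else 0) / ∑ w ∈ W, Iw f w := by
        intro w _
        rw [← Finset.sum_mul, EPL_row]
        split_ifs <;> simp
      rw [Finset.sum_congr rfl h3, ← Finset.sum_div, ← Finset.sum_filter, div_le_iff₀ hm]
      exact hπ a)
    hδ hf v
  refine le_trans ?_ hI
  rw [EPL_eq, ← hsum fun z => if δ < |discreteDeriv z.1 f (mix (C z.1) z.2 v)| then 1 else 0,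
    Finset.sum_filter]
  refine Finset.sum_le_sum fun z _ => ?_
  have h1 := hu z
  rw [← mix_insert_update] at h1
  by_cases h2 : δ < |discreteDeriv z.1 f (mix (C z.1) z.2 v)|
  · rw [if_pos h2, if_pos (h2.trans_le h1), mul_one]
  · rw [if_neg h2, mul_zero]
    split_ifs with h3 h4
    · exact EPLq_nonneg z
    · exact le_refl _
    · exact le_refl _

lemma dyadic_sq (J : ℕ) {g : ℝ} (h0 : 0 ≤ g) (h1 : g ≤ 1) :
    g ^ 2 ≤ (1 / 4 : ℝ) ^ J +
      ∑ i ∈ range J, (1 / 4 : ℝ) ^ i * (if (1 / 2 : ℝ) ^ (i + 1) < g then 1 else 0) := by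
  induction J with
  | zero =>
    simp only [pow_zero, Finset.range_zero, Finset.sum_empty, add_zero]
    exact pow_le_one₀ h0 h1
  | succ J ih =>
    rw [Finset.sum_range_succ]
    have h2 : (0 : ℝ) ≤
        ∑ i ∈ range J, (1 / 4 : ℝ) ^ i * (if (1 / 2 : ℝ) ^ (i + 1) < g then 1 else 0) :=
      Finset.sum_nonneg fun i _ => by
        split_ifs
        · positivity
        · simp
    have h5 : (0 : ℝ) < (1 / 4 : ℝ) ^ (J + 1) := by positivity
    split_ifs with h3
    · linarith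
    · push Not at h3
      have h4 : g ^ 2 ≤ ((1 / 2 : ℝ) ^ (J + 1)) ^ 2 := pow_le_pow_left₀ h0 h3 2
      rw [← pow_mul, mul_comm, pow_mul] at h4
      norm_num at h4 h2 ⊢
      linarith

theorem pivot_le {f : Cube n → ℝ} (hf : Bdd d f) {W : Finset (Fin n)}
    {C : Fin n → Finset (Fin n)} {K π : ℝ} (hm : 0 < ∑ w ∈ W, Iw f w) (hK0 : 0 ≤ K)
    (hπ0 : 0 ≤ π) (hK : ∀ w ∈ W, ((C w).card : ℝ) ≤ K)
    (hπ : ∀ a, ∑ w ∈ W.filter (fun w => a ∈ insert w (C w)), Iw f w ≤ π * ∑ w ∈ W, Iw f w)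
    (v : Cube n) :
    EP f W (fun w x => gs f w (mix (C w) x v)) ≤ 16 * (d : ℝ) ^ 2 * (K + 1) * π := by
  have key : ∀ J : ℕ, EP f W (fun w x => gs f w (mix (C w) x v)) ≤
      (1 / 4 : ℝ) ^ J + 16 * (d : ℝ) ^ 2 * (K + 1) * π := by
    intro J
    have h1 : EP f W (fun w x => gs f w (mix (C w) x v)) ≤
        EP f W (fun w x => (1 / 4 : ℝ) ^ J + ∑ i ∈ range J, (1 / 4 : ℝ) ^ i *
          (if (1 / 2 : ℝ) ^ (i + 1) < |discreteDeriv w f (mix (C w) x v)| then 1 else 0)) := by
      refine EP_mono hm fun w _ x => ?_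
      have h2 := dyadic_sq J (abs_nonneg (discreteDeriv w f (mix (C w) x v)))
        ((bdd_deriv hf w).2 _)
      rw [sq_abs] at h2
      exact h2
    refine h1.trans ?_
    rw [EP_add (fun _ _ => (1 / 4 : ℝ) ^ J), EP_const hm, EP_sum (range J) (fun i w x =>
      (1 / 4 : ℝ) ^ i * (if (1 / 2 : ℝ) ^ (i + 1) < |discreteDeriv w f (mix (C w) x v)|
        then 1 else 0))]
    refine add_le_add le_rfl ?_
    have h3 : ∀ i ∈ range J, EP f W (fun w x => (1 / 4 : ℝ) ^ i *
        (if (1 / 2 : ℝ) ^ (i + 1) < |discreteDeriv w f (mix (C w) x v)| then 1 else 0)) ≤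
        8 * (d : ℝ) ^ 2 * (K + 1) * π * (1 / 2 : ℝ) ^ i := by
      intro i _
      rw [EP_const_mul]
      have h4 := weak_tail hf hm hK0 hπ0 hK hπ (δ := (1 / 2 : ℝ) ^ (i + 1)) (by positivity) v
      refine (mul_le_mul_of_nonneg_left h4 (by positivity)).trans (le_of_eq ?_)
      have h5 : (1 / 4 : ℝ) ^ i = (1 / 2 : ℝ) ^ i * (1 / 2 : ℝ) ^ i := by
        rw [← mul_pow]
        norm_num
      rw [h5, pow_succ]
      field_simp
      ring
    refine (Finset.sum_le_sum h3).trans ?_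
    rw [← Finset.mul_sum]
    have h6 : ∑ i ∈ range J, (1 / 2 : ℝ) ^ i ≤ 2 := by
      have h7 := sum_geometric_two_le J
      simpa using h7
    have h8 : 0 ≤ 8 * (d : ℝ) ^ 2 * (K + 1) * π := by
      have : 0 ≤ K + 1 := by linarith
      positivity
    calc 8 * (d : ℝ) ^ 2 * (K + 1) * π * ∑ i ∈ range J, (1 / 2 : ℝ) ^ i
        ≤ 8 * (d : ℝ) ^ 2 * (K + 1) * π * 2 := mul_le_mul_of_nonneg_left h6 h8
      _ = _ := by ring
  refine le_of_forall_pos_le_add fun ε hε => ?_
  obtain ⟨J, hJ⟩ := exists_pow_lt_of_lt_one hε (show (1 / 4 : ℝ) < 1 by norm_num)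
  have := key J
  linarith

end Pool.Agent.AA2
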