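import Mathlib
import Pool.Agent.AA2.Weak
import Pool.Agent.AA2.Lower
import Pool.Agent.AA2.Rs

/-!
AA2 module MASS: the planting lemma.

Let `m = ∑_{w∈W} Iw f w`; if `m ≤ 0` the claim is trivial (right side `≥ 0`). Otherwise put
`π = 5 d p/(β^2 m)`. For every `a`: `∑_{w ∈ W, a ∈ insert w (C w)} Iw f w` is at most
`Iw f a` (if `a ∈ W`; then `Iw f a ≤ p ≤ d p/β^2`) plus `∑_{w ∈ W, a ∈ C w} Iw f w`, which is `0` if no
`C w` contains `a`; otherwise `Iw f a ≤ p` and, as `β^2 ≤ bw f w a ^ 2` for these `w`,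
`β^2 ∑ Iw f w ≤ ∑ Iw f w * bw f w a ^ 2 ≤ 4 d Iw f a ≤ 4 d p` (`sum_bw_sq`). So the hypothesis `hπ` of
`pivot_le` holds. By `plant_ge`, `ex_EP` (`QAA.EPlant`, exchange `ex` over `v` and `EP`) and
`pivot_le` for every `v` (`ex_mono`, `ex_const`):
`exp s * l ≤ 16 d^2 (K+1) 5 d p/(β^2 m)`. Multiply by `m exp (-s)/l`.
-/

set_option linter.dupNamespace false

namespace Pool.Agent.AA2

open Finset Pool.Agent.Helper11.Cube Pool.Agent.Helper11.AA Pool.Agent.SUB Pool.Agent.QAA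

variable {n d : ℕ}

theorem mass_le (hd : 1 ≤ d) {f : Cube n → ℝ} (hf : Bdd d f) {W : Finset (Fin n)}
    {C : Fin n → Finset (Fin n)} {β s l p K : ℝ} (hβ : 0 < β) (hβ1 : β ≤ 1) (hl : 0 < l)
    (hW : ∀ w ∈ W, l ≤ Iw f w) (hWp : ∀ w ∈ W, Iw f w ≤ p)
    (hC : ∀ w ∈ W, ∀ a ∈ C w, β ≤ |bw f w a| ∧ Iw f a ≤ p) (hK0 : 0 ≤ K)
    (hK : ∀ w ∈ W, ((C w).card : ℝ) ≤ K) (hs : ∀ w ∈ W, s ≤ ∑ a ∈ C w, KL (bw f w a)) (hp : 0 ≤ p) :
    ∑ w ∈ W, Iw f w ≤ 80 * (d : ℝ) ^ 3 * (K + 1) / β ^ 2 * (p / l) * Real.exp (-s) := by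
  have hK1 : 0 < K + 1 := by linarith
  rcases le_or_gt (∑ w ∈ W, Iw f w) 0 with hm | hm
  · exact hm.trans (by positivity)
  have hd1 : (1 : ℝ) ≤ d := by exact_mod_cast hd
  set m := ∑ w ∈ W, Iw f w with hmdef
  have hπ : ∀ a, ∑ w ∈ W.filter (fun w => a ∈ insert w (C w)), Iw f w ≤
      5 * d * p / (β ^ 2 * m) * ∑ w ∈ W, Iw f w := by
    intro a
    rw [← hmdef]
    have e1 : 5 * d * p / (β ^ 2 * m) * m = 5 * d * p / β ^ 2 := by
      field_simp
    rw [e1]
    have e2 : W.filter (fun w => a ∈ insert w (C w)) ⊆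
        W.filter (fun w => w = a) ∪ W.filter (fun w => a ∈ C w) := by
      intro w hw
      rw [Finset.mem_filter, Finset.mem_insert] at hw
      rw [Finset.mem_union, Finset.mem_filter, Finset.mem_filter]
      rcases hw.2 with h | h
      · exact Or.inl ⟨hw.1, h.symm⟩
      · exact Or.inr ⟨hw.1, h⟩
    have e3 : ∑ w ∈ W.filter (fun w => w = a), Iw f w ≤ p := by
      rw [Finset.filter_eq']
      split_ifs with h
      · rw [Finset.sum_singleton]
        exact hWp a h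
      · rw [Finset.sum_empty]
        exact hp
    have e4 : ∑ w ∈ W.filter (fun w => a ∈ C w), Iw f w ≤ 4 * d * p / β ^ 2 := by
      rcases (W.filter (fun w => a ∈ C w)).eq_empty_or_nonempty with h | ⟨w0, hw0⟩
      · rw [h, Finset.sum_empty]
        positivity
      · rw [Finset.mem_filter] at hw0
        have h1 := (hC w0 hw0.1 a hw0.2).2
        have h2 := sum_bw_sq hf (W.filter (fun w => a ∈ C w)) a
        rw [le_div_iff₀ (by positivity), Finset.sum_mul]
        refine le_trans (Finset.sum_le_sum fun w hw => ?_)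
          (h2.trans (mul_le_mul_of_nonneg_left h1 (by positivity)))
        rw [Finset.mem_filter] at hw
        have h3 := (hC w hw.1 a hw.2).1
        refine mul_le_mul_of_nonneg_left ?_ (Iw_nonneg f w)
        rw [← sq_abs (bw f w a)]
        exact pow_le_pow_left₀ hβ.le h3 2
    have e5 : p ≤ d * p / β ^ 2 := by
      rw [le_div_iff₀ (by positivity)]
      have h1 : β ^ 2 ≤ 1 := pow_le_one₀ hβ.le hβ1
      nlinarith
    have e6 : ∑ w ∈ W.filter (fun w => w = a) ∪ W.filter (fun w => a ∈ C w), Iw f w ≤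
        ∑ w ∈ W.filter (fun w => w = a), Iw f w + ∑ w ∈ W.filter (fun w => a ∈ C w), Iw f w := by
      rw [← Finset.sum_union_inter]
      have : 0 ≤ ∑ w ∈ W.filter (fun w => w = a) ∩ W.filter (fun w => a ∈ C w), Iw f w :=
        Finset.sum_nonneg fun w _ => Iw_nonneg f w
      linarith
    have e7 := Finset.sum_le_sum_of_subset_of_nonneg (f := fun w => Iw f w) e2
      (fun w _ _ => Iw_nonneg f w)
    have e8 : 5 * d * p / β ^ 2 = d * p / β ^ 2 + 4 * d * p / β ^ 2 := by ring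
    rw [e8]
    linarith
  have h1 := plant_ge hl hm hW hs
  rw [← ex_EP (fun v w x => gs f w (mix (C w) x v))] at h1
  have h2 : ex (fun v => EP f W (fun w x => gs f w (mix (C w) x v))) ≤
      ex (fun _ : Cube n => 16 * (d : ℝ) ^ 2 * (K + 1) * (5 * d * p / (β ^ 2 * m))) :=
    ex_mono fun v => pivot_le hf hm hK0 (by positivity) hK hπ v
  rw [ex_const] at h2
  have h3 := h1.trans h2
  have h4 : 80 * (d : ℝ) ^ 3 * (K + 1) / β ^ 2 * (p / l) * Real.exp (-s) =
      m * (16 * (d : ℝ) ^ 2 * (K + 1) * (5 * d * p / (β ^ 2 * m))) * (Real.exp (-s) / l) := by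
    field_simp
    ring
  rw [h4]
  have h5 : m = m * (Real.exp s * l) * (Real.exp (-s) / l) := by
    have h6 : Real.exp s * Real.exp (-s) = 1 := by rw [← Real.exp_add]; simp
    have h7 : m * (Real.exp s * l) * (Real.exp (-s) / l) =
        m * (Real.exp s * Real.exp (-s)) * (l / l) := by ring
    rw [h7, h6, div_self hl.ne']
    ring
  calc m = m * (Real.exp s * l) * (Real.exp (-s) / l) := h5
    _ ≤ _ := mul_le_mul_of_nonneg_right (mul_le_mul_of_nonneg_left h3 hm.le) (by positivity)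

end Pool.Agent.AA2
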