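import Mathlib
import Pool.Agent.AA2.Defs
import Pool.Agent.QAA.KLlow
import Pool.Agent.QAA.Inf
import Pool.Agent.SUB.KLReal

/-!
AA2 module SEL: choosing the planted sets.

* `exists_sub`: among the subsets `B ⊆ A` with `t ≤ ∑_{a∈B} q a` take one of minimal cardinality
  (`Finset.exists_min_image`). If `B` is empty then the sum is `0 ≤ t + 1`. Otherwise remove an element
  `b`: by minimality `∑_{a∈B.erase b} q a < t`, so `∑_{a∈B} q a < t + q b ≤ t + 1`.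
* `KL_le_one`: `KL b ≤ b^2 ≤ 1` (`KL_le_sq`).
* `exists_planted`: `exists_sub` with `q a = KL (bw f w a)`, `A = Nr d β f C0 w`. The cardinality:
  `|B| β^2/2 ≤ ∑_{a∈B} KL ≤ t + 1` (`KL_ge`: `b^2/2 ≤ KL b`, and `β^2 ≤ b^2` for `a ∈ Nr`).
-/

set_option linter.dupNamespace false

namespace Pool.Agent.AA2

open Finset Pool.Agent.Helper11.Cube Pool.Agent.Helper11.AA Pool.Agent.SUB Pool.Agent.QAA

variable {n d : ℕ}

lemma exists_sub {ι : Type*} [DecidableEq ι] (A : Finset ι) (q : ι → ℝ)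
    (hq1 : ∀ a ∈ A, q a ≤ 1) {t : ℝ} (ht : 0 ≤ t) (h : t ≤ ∑ a ∈ A, q a) :
    ∃ B ⊆ A, t ≤ ∑ a ∈ B, q a ∧ ∑ a ∈ B, q a ≤ t + 1 := by
  have hne : (A.powerset.filter (fun B => t ≤ ∑ a ∈ B, q a)).Nonempty :=
    ⟨A, Finset.mem_filter.2 ⟨Finset.mem_powerset_self A, h⟩⟩
  obtain ⟨B, hB, hmin⟩ := Finset.exists_min_image _ Finset.card hne
  rw [Finset.mem_filter, Finset.mem_powerset] at hB
  refine ⟨B, hB.1, hB.2, ?_⟩
  rcases B.eq_empty_or_nonempty with h0 | ⟨b, hb⟩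
  · rw [h0, Finset.sum_empty]
    linarith
  · have h1 : ∑ a ∈ B.erase b, q a < t := by
      by_contra h2
      push Not at h2
      have h3 := hmin (B.erase b) (Finset.mem_filter.2
        ⟨Finset.mem_powerset.2 ((Finset.erase_subset b B).trans hB.1), h2⟩)
      have h4 := Finset.card_erase_lt_of_mem hb
      omega
    have h2 := Finset.add_sum_erase B q hb
    have h3 := hq1 b (hB.1 hb)
    linarith

lemma exists_planted {f : Cube n → ℝ} {β : ℝ} (hβ : 0 < β) (C : Finset (Fin n)) (w : Fin n) {t : ℝ}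
    (ht : 0 ≤ t) (h : t ≤ yN d β f C w) :
    ∃ B ⊆ Nr d β f C w, t ≤ ∑ a ∈ B, KL (bw f w a) ∧ (B.card : ℝ) ≤ 2 * (t + 1) / β ^ 2 := by
  obtain ⟨B, hB, h1, h2⟩ := exists_sub (Nr d β f C w) (fun a => KL (bw f w a)) (fun a _ => by
    have h3 := KL_le_sq (abs_bw_le f w a)
    have h4 : bw f w a ^ 2 ≤ 1 := by
      rw [← sq_abs]
      exact pow_le_one₀ (abs_nonneg _) (abs_bw_le f w a)
    linarith) ht h
  refine ⟨B, hB, h1, ?_⟩
  rw [le_div_iff₀ (by positivity)]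
  have h3 : (B.card : ℝ) * (β ^ 2 / 2) ≤ ∑ a ∈ B, KL (bw f w a) := by
    rw [← nsmul_eq_mul]
    refine Finset.card_nsmul_le_sum _ _ _ fun a ha => ?_
    have h4 := KL_ge (abs_bw_le f w a)
    have h5 := (Finset.mem_filter.1 (hB ha)).2.1
    have h6 : β ^ 2 ≤ bw f w a ^ 2 := by
      rw [← sq_abs (bw f w a)]
      exact pow_le_pow_left₀ hβ.le h5 2
    linarith
  linarith

end Pool.Agent.AA2
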