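import Mathlib
import Pool.Agent.AA2.Mass
import Pool.Agent.AA2.Sel

/-!
AA2 module NEAR: the coordinates with a large near entropy carry little.

`near_mass`: `Y = {w ∈ C | t ≤ yN w}`. Terms with `Iw f w = 0` vanish. For `k : ℕ` let
`W k = {w ∈ Y | θ/2^(k+1) < Iw f w ≤ θ/2^k}` (every `w ∈ Y` with `Iw f w > 0` is in some `W k`, `k < M`,
for `M` large: `Iw f w < θ = θ/2^0`; take `M` with `θ/2^M < Iw f w` for all `w` with `Iw f w > 0`; e.g.
`M = ∑_w M_w`, or a sup over the finite set). For `w ∈ W k` choose `B w ⊆ Nr d β f C w` by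
`exists_planted`; apply `mass_le` with `l = θ/2^(k+1)`, `p = 4 d θ/2^k = 8 d l`, `s = t`,
`K = 2(t+1)/β^2` (`a ∈ Nr`: `Iw f a ≤ 4 d Iw f w ≤ p`):
`∑_{W k} Iw ≤ 80 d^3 (2(t+1)/β^2 + 1)/β^2 8 d exp(-t) ≤ 1920 d^4 (t+1)/β^4 exp(-t)` (`β ≤ 1`). Then
`∑_{W k} Iw^2 ≤ θ/2^k ∑_{W k} Iw` and `∑_k 1/2^k ≤ 2`.
-/

set_option linter.dupNamespace false

namespace Pool.Agent.AA2

open Finset Pool.Agent.Helper11.Cube Pool.Agent.Helper11.AA Pool.Agent.SUB Pool.Agent.QAA

variable {n d : ℕ}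

lemma shell_mass (hd : 1 ≤ d) {f : Cube n → ℝ} (hf : Bdd d f) {β θ : ℝ} (hβ : 0 < β)
    (hβ1 : β ≤ 1) (hθ : 0 < θ) (C : Finset (Fin n)) (t k : ℕ) :
    ∑ w ∈ C.filter (fun w => (t : ℝ) ≤ yN d β f C w ∧ θ / 2 ^ (k + 1) < Iw f w ∧
        Iw f w ≤ θ / 2 ^ k), Iw f w
      ≤ 1920 * (d : ℝ) ^ 4 * ((t : ℝ) + 1) / β ^ 4 * Real.exp (-(t : ℝ)) := by
  classical
  have hd1 : (1 : ℝ) ≤ d := by exact_mod_cast hd
  have hd0 : (0 : ℝ) < d := by linarith
  set W := C.filter (fun w => (t : ℝ) ≤ yN d β f C w ∧ θ / 2 ^ (k + 1) < Iw f w ∧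
        Iw f w ≤ θ / 2 ^ k) with hW
  have hex : ∀ w, ∃ B, w ∈ W → (B ⊆ Nr d β f C w ∧ (t : ℝ) ≤ ∑ a ∈ B, KL (bw f w a) ∧
      (B.card : ℝ) ≤ 2 * ((t : ℝ) + 1) / β ^ 2) := by
    intro w
    by_cases h : w ∈ W
    · obtain ⟨B, h1, h2, h3⟩ := exists_planted (f := f) hβ C w (Nat.cast_nonneg t)
        (by rw [hW, Finset.mem_filter] at h; exact h.2.1)
      exact ⟨B, fun _ => ⟨h1, h2, h3⟩⟩
    · exact ⟨∅, fun h' => absurd h' h⟩
  choose B hB using hex
  set l : ℝ := θ / 2 ^ (k + 1) with hl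
  have hl0 : 0 < l := by positivity
  have hl2 : θ / 2 ^ k = 2 * l := by
    rw [hl, pow_succ]
    field_simp
  have ht0 : (0 : ℝ) ≤ (t : ℝ) := Nat.cast_nonneg t
  have h := mass_le hd hf (W := W) (C := B) (β := β) (s := (t : ℝ)) (l := l) (p := 8 * d * l)
    (K := 2 * ((t : ℝ) + 1) / β ^ 2) hβ hβ1 hl0
    (fun w hw => by rw [hW, Finset.mem_filter] at hw; exact hw.2.2.1.le)
    (fun w hw => by
      rw [hW, Finset.mem_filter] at hw
      have h1 := hw.2.2.2
      rw [hl2] at h1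
      nlinarith)
    (fun w hw a ha => by
      have h1 := (hB w hw).1 ha
      unfold Nr at h1
      rw [Finset.mem_filter] at h1
      refine ⟨h1.2.1, h1.2.2.trans ?_⟩
      rw [hW, Finset.mem_filter] at hw
      have h2 := hw.2.2.2
      rw [hl2] at h2
      calc 4 * (d : ℝ) * Iw f w ≤ 4 * (d : ℝ) * (2 * l) :=
            mul_le_mul_of_nonneg_left h2 (by positivity)
        _ = 8 * d * l := by ring)
    (by positivity) (fun w hw => (hB w hw).2.2) (fun w hw => (hB w hw).2.1) (by positivity)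
  refine h.trans ?_
  have h1 : 8 * (d : ℝ) * l / l = 8 * d := by field_simp
  rw [h1]
  have hβ21 : β ^ 2 ≤ 1 := by
    calc β ^ 2 ≤ 1 ^ 2 := pow_le_pow_left₀ hβ.le hβ1 2
      _ = 1 := one_pow 2
  have h2 : 2 * ((t : ℝ) + 1) / β ^ 2 + 1 ≤ 3 * ((t : ℝ) + 1) / β ^ 2 := by
    have h3 : (1 : ℝ) ≤ ((t : ℝ) + 1) / β ^ 2 := by
      rw [le_div_iff₀ (by positivity)]
      linarith
    have h4 : 3 * ((t : ℝ) + 1) / β ^ 2 = 2 * ((t : ℝ) + 1) / β ^ 2 + ((t : ℝ) + 1) / β ^ 2 := by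
      ring
    rw [h4]
    linarith
  calc 80 * (d : ℝ) ^ 3 * (2 * ((t : ℝ) + 1) / β ^ 2 + 1) / β ^ 2 * (8 * d) * Real.exp (-(t : ℝ))
      ≤ 80 * (d : ℝ) ^ 3 * (3 * ((t : ℝ) + 1) / β ^ 2) / β ^ 2 * (8 * d) *
          Real.exp (-(t : ℝ)) := by
        gcongr
    _ = 1920 * (d : ℝ) ^ 4 * ((t : ℝ) + 1) / β ^ 4 * Real.exp (-(t : ℝ)) := by
        field_simp
        ring

theorem near_mass (hd : 1 ≤ d) {f : Cube n → ℝ} (hf : Bdd d f) {β θ : ℝ} (hβ : 0 < β)
    (hβ1 : β ≤ 1) (hθ : 0 < θ) {C : Finset (Fin n)} (hC : ∀ w ∈ C, Iw f w < θ) (t : ℕ) :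
    ∑ w ∈ C.filter (fun w => (t : ℝ) ≤ yN d β f C w), Iw f w ^ 2
      ≤ θ * (3840 * (d : ℝ) ^ 4 * ((t : ℝ) + 1) / β ^ 4 * Real.exp (-(t : ℝ))) := by
  classical
  set B : ℝ := 1920 * (d : ℝ) ^ 4 * ((t : ℝ) + 1) / β ^ 4 * Real.exp (-(t : ℝ)) with hB
  have hB0 : 0 ≤ B := by positivity
  -- the number of shells
  have hM : ∃ M : ℕ, ∀ w ∈ C, 0 < Iw f w → θ / 2 ^ M < Iw f w := by
    have h1 : ∀ w, ∃ M : ℕ, 0 < Iw f w → θ / 2 ^ M < Iw f w := by
      intro w
      by_cases h : 0 < Iw f w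
      · obtain ⟨M, hM⟩ := pow_unbounded_of_one_lt (θ / Iw f w) (one_lt_two : (1 : ℝ) < 2)
        refine ⟨M, fun _ => ?_⟩
        rw [div_lt_iff₀ (by positivity)]
        rw [div_lt_iff₀ h] at hM
        linarith
      · exact ⟨0, fun h' => absurd h' h⟩
    choose M hM using h1
    refine ⟨∑ w, M w, fun w _ hw => ?_⟩
    refine lt_of_le_of_lt ?_ (hM w hw)
    apply div_le_div_of_nonneg_left hθ.le (by positivity)
    apply pow_le_pow_right₀ one_le_two
    exact Finset.single_le_sum (f := M) (fun _ _ => Nat.zero_le _) (Finset.mem_univ w)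
  obtain ⟨M, hM⟩ := hM
  set Y := C.filter (fun w => (t : ℝ) ≤ yN d β f C w) with hY
  set Wk : ℕ → Finset (Fin n) := fun k => C.filter (fun w => (t : ℝ) ≤ yN d β f C w ∧
    θ / 2 ^ (k + 1) < Iw f w ∧ Iw f w ≤ θ / 2 ^ k) with hWk
  have hpt : ∀ w ∈ Y, Iw f w ^ 2 ≤ ∑ k ∈ range M, (if w ∈ Wk k then θ / 2 ^ k * Iw f w else 0) := by
    intro w hw
    have hnn : ∀ k ∈ range M, (0 : ℝ) ≤ (if w ∈ Wk k then θ / 2 ^ k * Iw f w else 0) := by
      intro k _
      split_ifs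
      · exact mul_nonneg (by positivity) (Iw_nonneg f w)
      · exact le_rfl
    rw [hY, Finset.mem_filter] at hw
    rcases (Iw_nonneg f w).eq_or_lt with h0 | h0
    · rw [← h0]
      have := Finset.sum_nonneg hnn
      rw [← h0] at this
      simpa using this
    · have hex : ∃ k : ℕ, θ / 2 ^ (k + 1) < Iw f w := by
        refine ⟨M, lt_of_le_of_lt ?_ (hM w hw.1 h0)⟩
        apply div_le_div_of_nonneg_left hθ.le (by positivity)
        exact pow_le_pow_right₀ one_le_two (Nat.le_succ M)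
      have hspec := Nat.find_spec hex
      have hup : Iw f w ≤ θ / 2 ^ (Nat.find hex) := by
        rcases Nat.eq_zero_or_pos (Nat.find hex) with h1 | h1
        · rw [h1]
          simpa using (hC w hw.1).le
        · have hmin := Nat.find_min hex (m := Nat.find hex - 1) (by omega)
          push Not at hmin
          have h2 : Nat.find hex - 1 + 1 = Nat.find hex := by omega
          rwa [h2] at hmin
      have hlt : Nat.find hex < M := by
        by_contra hcon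
        push Not at hcon
        have h1 : θ / 2 ^ (Nat.find hex) ≤ θ / 2 ^ M := by
          apply div_le_div_of_nonneg_left hθ.le (by positivity)
          exact pow_le_pow_right₀ one_le_two hcon
        have h2 := hM w hw.1 h0
        linarith
      have hmem : w ∈ Wk (Nat.find hex) := by
        rw [hWk, Finset.mem_filter]
        exact ⟨hw.1, hw.2, hspec, hup⟩
      have hsingle := Finset.single_le_sum hnn (Finset.mem_range.2 hlt)
      rw [if_pos hmem] at hsingle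
      calc Iw f w ^ 2 = Iw f w * Iw f w := sq _
        _ ≤ θ / 2 ^ (Nat.find hex) * Iw f w := mul_le_mul_of_nonneg_right hup h0.le
        _ ≤ _ := hsingle
  calc ∑ w ∈ Y, Iw f w ^ 2
      ≤ ∑ w ∈ Y, ∑ k ∈ range M, (if w ∈ Wk k then θ / 2 ^ k * Iw f w else 0) :=
        Finset.sum_le_sum hpt
    _ = ∑ k ∈ range M, ∑ w ∈ Y, (if w ∈ Wk k then θ / 2 ^ k * Iw f w else 0) := Finset.sum_comm
    _ ≤ ∑ k ∈ range M, θ / 2 ^ k * B := by
        apply Finset.sum_le_sum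
        intro k _
        have h1 : ∑ w ∈ Y, (if w ∈ Wk k then θ / 2 ^ k * Iw f w else 0)
            ≤ ∑ w ∈ Wk k, θ / 2 ^ k * Iw f w := by
          rw [← Finset.sum_filter]
          apply Finset.sum_le_sum_of_subset_of_nonneg
          · intro w hw
            exact (Finset.mem_filter.1 hw).2
          · intro w _ _
            exact mul_nonneg (by positivity) (Iw_nonneg f w)
        refine h1.trans ?_
        rw [← Finset.mul_sum]
        apply mul_le_mul_of_nonneg_left _ (by positivity)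
        exact shell_mass hd hf hβ hβ1 hθ C t k
    _ = θ * B * ∑ k ∈ range M, (1 / 2 : ℝ) ^ k := by
        rw [Finset.mul_sum]
        apply Finset.sum_congr rfl
        intro k _
        rw [one_div, inv_pow]
        ring
    _ ≤ θ * B * 2 := by
        apply mul_le_mul_of_nonneg_left _ (by positivity)
        exact sum_geometric_two_le M
    _ = θ * (3840 * (d : ℝ) ^ 4 * ((t : ℝ) + 1) / β ^ 4 * Real.exp (-(t : ℝ))) := by
        rw [hB]
        ring

end Pool.Agent.AA2
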