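import Mathlib
import Pool.Agent.AA2.Near

/-!
AA2 module NEARSUM: the near part of the growth.

`layer`: for `y ≥ 0`, `T M : ℕ` with `y ≤ T + M`: `y ≤ T + ∑_{j<M} 1[T + j ≤ y]` (if `y < T` trivial;
otherwise the `j` with `T + j ≤ y`, i.e. `j ≤ y - T`, are `⌊y - T⌋ + 1 > y - T` many, or all `M`; an
induction on `M` is simplest: for `M + 1` and `y > T + M` all terms are `1`).
`tail_sum`: `∑_{j<M} (T + j + 1) exp(-(T+j)) ≤ 6 exp(-T/2)`: `(t+1) exp(-t) ≤ 2 exp(-t/2)`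
(`1 + t/2 ≤ exp(t/2)`) and `∑_j exp(-j/2) ≤ 1/(1 - exp(-1/2)) ≤ 3` (`exp(-1/2) ≤ 0.61`; prove by
induction on `M` the bound `∑_{j<M} q^j ≤ 1/(1-q)` or use `geom_sum`), `q = exp(-1/2)`.
`near_sum`: `∑_{w∈C} Iw^2 (2 yN) ≤ 2 T ∑ Iw^2 + 2 ∑_{j<M} ∑_{w ∈ C, T + j ≤ yN w} Iw^2` for `M`
large (finite set), then `near_mass` for `t = T + j` and `tail_sum`: `2 * 3840 * 6 = 46080`.
(`yN ≥ 0` by `KL_nonneg`, `abs_bw_le`.)
-/

set_option linter.dupNamespace false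

namespace Pool.Agent.AA2

open Finset Pool.Agent.Helper11.Cube Pool.Agent.Helper11.AA Pool.Agent.SUB Pool.Agent.QAA

variable {n d : ℕ}

lemma layer (T M : ℕ) {y : ℝ} (hy : y ≤ (T : ℝ) + M) :
    y ≤ (T : ℝ) + ∑ j ∈ range M, (if (((T + j : ℕ) : ℝ) ≤ y) then (1 : ℝ) else 0) := by
  induction M with
  | zero =>
    simpa using hy
  | succ M ih =>
    by_cases h : y ≤ (T : ℝ) + M
    · have h1 := ih h
      rw [Finset.sum_range_succ]
      have h2 : (0 : ℝ) ≤ (if (((T + M : ℕ) : ℝ) ≤ y) then (1 : ℝ) else 0) := by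
        split_ifs <;> norm_num
      linarith
    · have h1 : ∀ j ∈ range (M + 1),
          (if (((T + j : ℕ) : ℝ) ≤ y) then (1 : ℝ) else 0) = 1 := by
        intro j hj
        rw [if_pos]
        have h2 : ((j : ℕ) : ℝ) ≤ M := by
          exact_mod_cast Nat.lt_succ_iff.mp (Finset.mem_range.mp hj)
        push_cast
        linarith
      rw [Finset.sum_congr rfl h1, Finset.sum_const, Finset.card_range, nsmul_eq_mul, mul_one]
      exact hy

lemma tail_sum (T M : ℕ) :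
    ∑ j ∈ range M, (((T + j : ℕ) : ℝ) + 1) * Real.exp (-((T + j : ℕ) : ℝ))
      ≤ 6 * Real.exp (-((T : ℝ) / 2)) := by
  obtain ⟨q, hq⟩ : ∃ q : ℝ, q = Real.exp (-(1 / 2)) := ⟨_, rfl⟩
  have hq0 : 0 < q := by
    rw [hq]
    exact Real.exp_pos _
  have hq1 : q ≤ 2 / 3 := by
    have h1 := Real.add_one_le_exp (1 / 2 : ℝ)
    have h2 : q * Real.exp (1 / 2) = 1 := by
      rw [hq, ← Real.exp_add]
      norm_num
    have h3 : q * (3 / 2) ≤ q * Real.exp (1 / 2) :=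
      mul_le_mul_of_nonneg_left (by linarith) hq0.le
    linarith
  have hgeo : ∀ M : ℕ, ∑ j ∈ range M, q ^ j ≤ 3 := by
    intro M
    induction M with
    | zero => simp
    | succ M ih =>
      rw [Finset.sum_range_succ']
      have h1 : ∑ k ∈ range M, q ^ (k + 1) = q * ∑ k ∈ range M, q ^ k := by
        rw [Finset.mul_sum]
        exact Finset.sum_congr rfl fun k _ => by ring
      have h2 : 0 ≤ ∑ k ∈ range M, q ^ k := Finset.sum_nonneg fun k _ => pow_nonneg hq0.le k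
      rw [h1, pow_zero]
      nlinarith
  have hterm : ∀ j ∈ range M, (((T + j : ℕ) : ℝ) + 1) * Real.exp (-((T + j : ℕ) : ℝ)) ≤
      2 * Real.exp (-((T : ℝ) / 2)) * q ^ j := by
    intro j _
    obtain ⟨t, ht⟩ : ∃ t : ℝ, t = ((T + j : ℕ) : ℝ) := ⟨_, rfl⟩
    rw [← ht]
    have ht0 : 0 ≤ t := by
      rw [ht]
      exact Nat.cast_nonneg _
    have h1 := Real.add_one_le_exp (t / 2)
    have h2 : (t + 1) * Real.exp (-t) ≤ 2 * Real.exp (t / 2) * Real.exp (-t) :=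
      mul_le_mul_of_nonneg_right (by linarith) (Real.exp_pos _).le
    have h3 : 2 * Real.exp (t / 2) * Real.exp (-t) = 2 * Real.exp (-((T : ℝ) / 2)) * q ^ j := by
      rw [hq, ← Real.exp_nat_mul, mul_assoc, mul_assoc, ← Real.exp_add, ← Real.exp_add, ht]
      congr 2
      push_cast
      ring
    linarith
  refine (Finset.sum_le_sum hterm).trans ?_
  rw [← Finset.mul_sum]
  have h1 := mul_le_mul_of_nonneg_left (hgeo M)
    (by positivity : (0 : ℝ) ≤ 2 * Real.exp (-((T : ℝ) / 2)))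
  linarith

theorem near_sum (hd : 1 ≤ d) {f : Cube n → ℝ} (hf : Bdd d f) {β θ : ℝ} (hβ : 0 < β)
    (hβ1 : β ≤ 1) (hθ : 0 < θ) {C : Finset (Fin n)} (hC : ∀ w ∈ C, Iw f w < θ) (T : ℕ) :
    ∑ w ∈ C, Iw f w ^ 2 * (2 * yN d β f C w)
      ≤ 2 * (T : ℝ) * ∑ w ∈ C, Iw f w ^ 2
        + θ * (46080 * (d : ℝ) ^ 4 / β ^ 4 * Real.exp (-((T : ℝ) / 2))) := by
  have hy0 : ∀ w, 0 ≤ yN d β f C w := fun w =>
    Finset.sum_nonneg fun a _ => KL_nonneg (abs_bw_le f w a)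
  obtain ⟨M, hM⟩ : ∃ M : ℕ, ∀ w ∈ C, yN d β f C w ≤ (T : ℝ) + M := by
    refine ⟨⌈∑ w ∈ C, yN d β f C w⌉₊, fun w hw => ?_⟩
    have h1 : yN d β f C w ≤ ∑ w ∈ C, yN d β f C w :=
      Finset.single_le_sum (f := fun w => yN d β f C w) (fun w _ => hy0 w) hw
    have h2 := Nat.le_ceil (∑ w ∈ C, yN d β f C w)
    have h3 : (0 : ℝ) ≤ T := Nat.cast_nonneg _
    linarith
  have h1 : ∀ w ∈ C, Iw f w ^ 2 * (2 * yN d β f C w) ≤ 2 * (T : ℝ) * Iw f w ^ 2 +
      2 * ∑ j ∈ range M, (if (((T + j : ℕ) : ℝ) ≤ yN d β f C w) then Iw f w ^ 2 else 0) := by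
    intro w hw
    have e1 := layer T M (hM w hw)
    have e2 : 0 ≤ 2 * Iw f w ^ 2 := by positivity
    have e3 := mul_le_mul_of_nonneg_left e1 e2
    have e4 : ∑ j ∈ range M, (if (((T + j : ℕ) : ℝ) ≤ yN d β f C w) then Iw f w ^ 2 else 0) =
        Iw f w ^ 2 * ∑ j ∈ range M,
          (if (((T + j : ℕ) : ℝ) ≤ yN d β f C w) then (1 : ℝ) else 0) := by
      rw [Finset.mul_sum]
      refine Finset.sum_congr rfl fun j _ => ?_
      split_ifs <;> ring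
    rw [e4]
    linarith
  refine (Finset.sum_le_sum h1).trans ?_
  rw [Finset.sum_add_distrib, ← Finset.mul_sum, ← Finset.mul_sum, Finset.sum_comm]
  have h2 : ∀ j ∈ range M,
      ∑ w ∈ C, (if (((T + j : ℕ) : ℝ) ≤ yN d β f C w) then Iw f w ^ 2 else 0) ≤
      θ * (3840 * (d : ℝ) ^ 4 / β ^ 4) *
        ((((T + j : ℕ) : ℝ) + 1) * Real.exp (-((T + j : ℕ) : ℝ))) := by
    intro j _
    rw [← Finset.sum_filter]
    refine (near_mass hd hf hβ hβ1 hθ hC (T + j)).trans (le_of_eq ?_)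
    ring
  have h3 := Finset.sum_le_sum h2
  rw [← Finset.mul_sum] at h3
  have h4 : (0 : ℝ) ≤ θ * (3840 * (d : ℝ) ^ 4 / β ^ 4) := by positivity
  have h5 := mul_le_mul_of_nonneg_left (tail_sum T M) h4
  have h6 : θ * (3840 * (d : ℝ) ^ 4 / β ^ 4) * (6 * Real.exp (-((T : ℝ) / 2))) =
      θ * (46080 * (d : ℝ) ^ 4 / β ^ 4 * Real.exp (-((T : ℝ) / 2))) / 2 := by ring
  linarith

end Pool.Agent.AA2
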