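import Mathlib
import Pool.Agent.AA2.Rs

/-!
AA2 module SMALL: the total bias is at most `8 d^4`.

`bw_abs_le`: `bw f w a * Iw f w = ex (x_a g^2)`, `g = D_w f` (`bw_mul`), `= ex (D_a (g^2))`
(`ex_sg_mul`), and `D_a (g^2) x = D_a g x * (g (update x a 1) + g (update x a (-1)))`. Taking absolute
values, `|D_a (g^2) x| ≤ |D_a g x| (|g (update x a 1)| + |g (update x a (-1))|)`; `|D_a g|` does not
change under `update x a u` (`deriv_update_self`), so by `ex_update` applied to `|D_a g| |g|`: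
`|bw f w a| Iw f w ≤ 2 ex (|D_a g| |g|)`.
`sum_bw_abs`: sum over `a`: `∑_a |D_a g x| ≤ 2 d^2` (`sum_abs_deriv2`), so
`∑_a |bw f w a| Iw f w ≤ 4 d^2 ex |D_w f|`, and `∑_w ex |D_w f| ≤ 2 d^2` (`sum_abs_deriv`).
`small_part`: for `|b| < β`, `Iw f w < θ`: `Iw^2 b^2 ≤ θ β Iw |b|`.
-/

set_option linter.dupNamespace false

namespace Pool.Agent.AA2

open Finset Pool.Agent.Helper11.Cube Pool.Agent.Helper11.AA Pool.Agent.SUB Pool.Agent.QAA

variable {n d : ℕ}

lemma bw_abs_le (f : Cube n → ℝ) (w a : Fin n) :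
    |bw f w a| * Iw f w
      ≤ 2 * ex (fun x => |discreteDeriv a (discreteDeriv w f) x| * |discreteDeriv w f x|) := by
  obtain ⟨g, hg⟩ : ∃ g : Cube n → ℝ, g = discreteDeriv w f := ⟨_, rfl⟩
  rw [← hg]
  have h1 : |bw f w a| * Iw f w = |bw f w a * Iw f w| := by
    rw [abs_mul, abs_of_nonneg (Iw_nonneg f w)]
  have h2 : gs f w = fun x => g x ^ 2 := by
    funext x
    rw [hg]
    rfl
  rw [h1, bw_mul, ex_sg_mul, h2]
  refine (abs_ex_le _).trans ?_
  have h3 := ex_update a (fun x => |discreteDeriv a g x| * |g x|)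
  rw [← h3, ← ex_mul_left']
  refine ex_mono fun x => ?_
  rw [deriv_update_self, deriv_update_self]
  have h4 : discreteDeriv a (fun x => g x ^ 2) x =
      discreteDeriv a g x * (g (Function.update x a 1) + g (Function.update x a (-1))) := by
    unfold discreteDeriv
    ring
  rw [h4, abs_mul]
  have h5 := abs_add_le (g (Function.update x a 1)) (g (Function.update x a (-1)))
  have h6 := mul_le_mul_of_nonneg_left h5 (abs_nonneg (discreteDeriv a g x))
  refine h6.trans (le_of_eq ?_)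
  ring

lemma sum_bw_abs {f : Cube n → ℝ} (hf : Bdd d f) (C : Finset (Fin n)) :
    ∑ w ∈ C, ∑ a ∈ C, |bw f w a| * Iw f w ≤ 8 * (d : ℝ) ^ 4 := by
  have h1 : ∀ w ∈ C, ∑ a ∈ C, |bw f w a| * Iw f w ≤
      4 * (d : ℝ) ^ 2 * ex (fun x => |discreteDeriv w f x|) := by
    intro w _
    have e1 : ∑ a ∈ C, |bw f w a| * Iw f w ≤ ∑ a, |bw f w a| * Iw f w :=
      Finset.sum_le_sum_of_subset_of_nonneg (Finset.subset_univ C)
        (fun a _ _ => mul_nonneg (abs_nonneg _) (Iw_nonneg f w))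
    have e2 : ∑ a, |bw f w a| * Iw f w ≤
        ∑ a, 2 * ex (fun x => |discreteDeriv a (discreteDeriv w f) x| * |discreteDeriv w f x|) :=
      Finset.sum_le_sum fun a _ => bw_abs_le f w a
    rw [← Finset.mul_sum, ← ex_sum] at e2
    have e3 : ex (fun x => ∑ a, |discreteDeriv a (discreteDeriv w f) x| * |discreteDeriv w f x|) ≤
        ex (fun x => 2 * (d : ℝ) ^ 2 * |discreteDeriv w f x|) := by
      refine ex_mono fun x => ?_
      rw [← Finset.sum_mul]
      exact mul_le_mul_of_nonneg_right (sum_abs_deriv2 hf w x) (abs_nonneg _)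
    rw [ex_mul_left'] at e3
    linarith
  have h2 : ∑ w ∈ C, ex (fun x => |discreteDeriv w f x|) ≤ 2 * (d : ℝ) ^ 2 := by
    have e1 : ∑ w ∈ C, ex (fun x => |discreteDeriv w f x|) ≤
        ∑ w, ex (fun x => |discreteDeriv w f x|) :=
      Finset.sum_le_sum_of_subset_of_nonneg (Finset.subset_univ C)
        (fun w _ _ => ex_nonneg fun x => abs_nonneg _)
    have e3 := ex_sum univ (fun (w : Fin n) (x : Cube n) => |discreteDeriv w f x|)
    have e2 : ex (fun x => ∑ w, |discreteDeriv w f x|) ≤ ex (fun _ : Cube n => 2 * (d : ℝ) ^ 2) :=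
      ex_mono fun x => sum_abs_deriv hf x
    rw [ex_const, e3] at e2
    exact e1.trans e2
  refine (Finset.sum_le_sum h1).trans ?_
  rw [← Finset.mul_sum]
  have h3 : (0 : ℝ) ≤ 4 * (d : ℝ) ^ 2 := by positivity
  refine (mul_le_mul_of_nonneg_left h2 h3).trans (le_of_eq ?_)
  ring

theorem small_part {f : Cube n → ℝ} (hf : Bdd d f) {β θ : ℝ} (hβ : 0 < β) (hθ : 0 < θ)
    {C : Finset (Fin n)} (hC : ∀ w ∈ C, Iw f w < θ) :
    ∑ w ∈ C, Iw f w ^ 2 * ∑ a ∈ C.filter (fun a => |bw f w a| < β), bw f w a ^ 2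
      ≤ θ * (8 * (d : ℝ) ^ 4 * β) := by
  have h1 : ∀ w ∈ C, Iw f w ^ 2 * ∑ a ∈ C.filter (fun a => |bw f w a| < β), bw f w a ^ 2 ≤
      ∑ a ∈ C, θ * β * (|bw f w a| * Iw f w) := by
    intro w hw
    rw [Finset.sum_filter, Finset.mul_sum]
    refine Finset.sum_le_sum fun a _ => ?_
    have e1 := Iw_nonneg f w
    have e2 := hC w hw
    have e3 := abs_nonneg (bw f w a)
    split_ifs with h
    · rw [← sq_abs (bw f w a)]
      have e4 : Iw f w * |bw f w a| ≤ θ * β := mul_le_mul e2.le h.le e3 hθ.le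
      have e5 : 0 ≤ |bw f w a| * Iw f w := mul_nonneg e3 e1
      calc Iw f w ^ 2 * |bw f w a| ^ 2 = (Iw f w * |bw f w a|) * (|bw f w a| * Iw f w) := by ring
        _ ≤ θ * β * (|bw f w a| * Iw f w) := mul_le_mul_of_nonneg_right e4 e5
    · rw [mul_zero]
      exact mul_nonneg (mul_nonneg hθ.le hβ.le) (mul_nonneg e3 e1)
  refine (Finset.sum_le_sum h1).trans ?_
  have h2 := sum_bw_abs hf C
  have h3 : ∑ w ∈ C, ∑ a ∈ C, θ * β * (|bw f w a| * Iw f w) =
      θ * β * ∑ w ∈ C, ∑ a ∈ C, |bw f w a| * Iw f w := by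
    simp only [Finset.mul_sum]
  rw [h3]
  refine (mul_le_mul_of_nonneg_left h2 (mul_nonneg hθ.le hβ.le)).trans (le_of_eq ?_)
  ring

end Pool.Agent.AA2
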