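import Mathlib
import Pool.Agent.AA2.NearSum
import Pool.Agent.AA2.Small
import Pool.Agent.AA2.Far

/-!
AA2 module LOCAL: the local inequality.

For every `w ∈ C` the sum over `a ∈ C` of `b^2` is at most the sum over the small ones
(`|b| < β`), plus the far ones (`4 d Iw f w < Iw f a`), plus the sum over `Nr d β f C w`, where
`b^2 ≤ 2 KL b` (`KL_ge`, `abs_bw_le`), i.e. plus `2 yN d β f C w`. Multiply by `Iw f w ^ 2`, sum, and
use `small_part`, `far_part`, `near_sum`.
-/

set_option linter.dupNamespace false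

namespace Pool.Agent.AA2

open Finset Pool.Agent.Helper11.Cube Pool.Agent.Helper11.AA Pool.Agent.SUB Pool.Agent.QAA

variable {n d : ℕ}

theorem local_ineq (hd : 1 ≤ d) {f : Cube n → ℝ} (hf : Bdd d f) {β θ : ℝ} (hβ : 0 < β)
    (hβ1 : β ≤ 1) (hθ : 0 < θ) {C : Finset (Fin n)} (hC : ∀ w ∈ C, Iw f w < θ) (T : ℕ) :
    FX f C ≤ (1 + 2 * (T : ℝ)) * FS f C + θ * Er d β T := by
  have h1 : ∀ w ∈ C, Iw f w ^ 2 * ∑ a ∈ C, bw f w a ^ 2 ≤
      Iw f w ^ 2 * ∑ a ∈ C.filter (fun a => |bw f w a| < β), bw f w a ^ 2 +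
      Iw f w ^ 2 * ∑ a ∈ C.filter (fun a => 4 * (d : ℝ) * Iw f w < Iw f a), bw f w a ^ 2 +
      Iw f w ^ 2 * (2 * yN d β f C w) := by
    intro w _
    rw [← mul_add, ← mul_add]
    refine mul_le_mul_of_nonneg_left ?_ (sq_nonneg _)
    unfold yN Nr
    rw [Finset.mul_sum, Finset.sum_filter, Finset.sum_filter, Finset.sum_filter,
      ← Finset.sum_add_distrib, ← Finset.sum_add_distrib]
    refine Finset.sum_le_sum fun a _ => ?_
    have e1 := KL_ge (abs_bw_le f w a)
    have e2 : 0 ≤ bw f w a ^ 2 := sq_nonneg _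
    have e3 := KL_nonneg (abs_bw_le f w a)
    by_cases c1 : |bw f w a| < β
    · rw [if_pos c1]
      have e4 : (0 : ℝ) ≤ if 4 * (d : ℝ) * Iw f w < Iw f a then bw f w a ^ 2 else 0 := by
        split_ifs
        · exact e2
        · exact le_rfl
      have e5 : (0 : ℝ) ≤ if β ≤ |bw f w a| ∧ Iw f a ≤ 4 * (d : ℝ) * Iw f w then
          2 * KL (bw f w a) else 0 := by
        split_ifs
        · linarith
        · exact le_rfl
      linarith
    · rw [if_neg c1]
      by_cases c2 : 4 * (d : ℝ) * Iw f w < Iw f a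
      · rw [if_pos c2]
        have e5 : (0 : ℝ) ≤ if β ≤ |bw f w a| ∧ Iw f a ≤ 4 * (d : ℝ) * Iw f w then
            2 * KL (bw f w a) else 0 := by
          split_ifs
          · linarith
          · exact le_rfl
        linarith
      · rw [if_neg c2, if_pos ⟨not_lt.mp c1, not_lt.mp c2⟩]
        linarith
  have h2 := Finset.sum_le_sum h1
  rw [Finset.sum_add_distrib, Finset.sum_add_distrib] at h2
  have h3 := small_part hf hβ hθ hC
  have h4 := far_part hd hf C
  have h5 := near_sum hd hf hβ hβ1 hθ hC T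
  unfold FX FS Er
  linarith

end Pool.Agent.AA2
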