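import Mathlib
import Pool.Agent.AA2.Rs

/-!
AA2 module MV: one move applied to the basic functionals.

Write `N = n + 1`, `c = |C|`. Split `∑ a` into `a ∈ C` and `a ∉ C` (`Finset.sum_ite` or
`Finset.sum_add_sum_compl`); the part `a ∉ C` gives `(n - c) Φ f C`.
* `mv_FO`: for `a ∈ C`: `(C.erase a)ᶜ = insert a Cᶜ`, `Iw (rs a u f) a = 0`, and for `w ∉ C`
  (`w ≠ a`) the average over `u = ±1` of `Iw (rs a u f) w` is `Iw f w` (`Iw_rs`). So every term of the
  sum is `FO f C`.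
* `mv_FI`: for `a ∈ C` the average is `∑_{w ∈ C.erase a} Iw f w = FI f C - Iw f a`. Total
  `(N FI - ∑_{a∈C} Iw f a)/N = n/N FI`.
* `mv_FS`: for `a ∈ C`, `w ≠ a`: the average of `Iw (rs a u f) w ^ 2` is
  `Iw^2 ((1+b)^2 + (1-b)^2)/2 = Iw^2 (1 + b^2)`, `b = bw f w a`; and `bw f w w = 0` (`bw_self`) so
  the sum over `w ∈ C.erase a` of `Iw^2 b^2` is the sum over `w ∈ C`. Total
  `((N - 1) FS + FX)/N`, exchanging the sums over `a` and `w` (`Finset.sum_comm`).
* `mv_FP`: for `c ∈ C` the average over `u` of `FP (rs c u f) (C.erase c)` is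
  `∑_{w,a ∈ C.erase c} I2 f a w = FP f C - ∑_{w∈C} I2 f c w - ∑_{a∈C} I2 f a c + I2 f c c` (`I2_rs`),
  `I2 f c c = 0`, total `(N - 2)/N FP ≤ (n/N)^2 FP` as `(n/N)^2 = 1 - 2/N + 1/N^2`.
-/

set_option linter.dupNamespace false

namespace Pool.Agent.AA2

open Finset Pool.Agent.Helper11.Cube Pool.Agent.Helper11.AA Pool.Agent.SUB Pool.Agent.QAA

variable {n : ℕ}

/-- a move of a functional whose average over the value of a revealed coordinate is known -/
lemma mv_eq_of (Φ : Fn n) (f : Cube n → ℝ) (C : Finset (Fin n)) (g : Fin n → ℝ)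
    (h : ∀ a ∈ C, (Φ (rs a 1 f) (C.erase a) + Φ (rs a (-1) f) (C.erase a)) / 2 = Φ f C - g a) :
    mv Φ f C = Φ f C - (∑ a ∈ C, g a) / ((n : ℝ) + 1) := by
  unfold mv
  have h1 : ∀ a : Fin n, (if a ∈ C then
      (Φ (rs a 1 f) (C.erase a) + Φ (rs a (-1) f) (C.erase a)) / 2 else Φ f C) =
      Φ f C - (if a ∈ C then g a else 0) := by
    intro a
    split_ifs with h2
    · exact h a h2
    · ring
  rw [Finset.sum_congr rfl fun a _ => h1 a, Finset.sum_sub_distrib, Finset.sum_const,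
    Finset.card_univ, Fintype.card_fin, nsmul_eq_mul, Finset.sum_ite_mem, Finset.univ_inter]
  have h3 : (n : ℝ) + 1 ≠ 0 := by positivity
  field_simp
  ring

lemma avg_Iw (f : Cube n → ℝ) {a w : Fin n} (h : w ≠ a) :
    (Iw (rs a 1 f) w + Iw (rs a (-1) f) w) / 2 = Iw f w := by
  rw [Iw_rs f h, Iw_rs f h]
  push_cast
  ring

lemma mv_FO (f : Cube n → ℝ) (C : Finset (Fin n)) : mv FO f C = FO f C := by
  rw [mv_eq_of FO f C (fun _ => 0)]
  · simp
  · intro a ha
    unfold FO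
    have h1 : (C.erase a)ᶜ = insert a Cᶜ := by
      ext w
      simp only [Finset.mem_compl, Finset.mem_erase, Finset.mem_insert, not_and_or, not_not, ne_eq]
    have h2 : a ∉ Cᶜ := by simpa using ha
    rw [h1, Finset.sum_insert h2, Finset.sum_insert h2, Iw_rs_self, Iw_rs_self, zero_add, zero_add,
      sub_zero, ← Finset.sum_add_distrib, Finset.sum_div]
    refine Finset.sum_congr rfl fun w hw => avg_Iw f ?_
    rintro rfl
    exact h2 hw

lemma mv_FI (f : Cube n → ℝ) (C : Finset (Fin n)) :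
    mv FI f C = (n : ℝ) / ((n : ℝ) + 1) * FI f C := by
  rw [mv_eq_of FI f C (fun a => Iw f a)]
  · unfold FI
    have h3 : (n : ℝ) + 1 ≠ 0 := by positivity
    field_simp
    ring
  · intro a ha
    unfold FI
    rw [← Finset.sum_add_distrib, Finset.sum_div, ← Finset.add_sum_erase C (fun w => Iw f w) ha]
    simp only [add_sub_cancel_left]
    refine Finset.sum_congr rfl fun w hw => avg_Iw f (Finset.ne_of_mem_erase hw)

lemma mv_FS (f : Cube n → ℝ) (C : Finset (Fin n)) :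
    mv FS f C = (n : ℝ) / ((n : ℝ) + 1) * FS f C + 1 / ((n : ℝ) + 1) * FX f C := by
  rw [mv_eq_of FS f C (fun a => Iw f a ^ 2 - ∑ w ∈ C, Iw f w ^ 2 * bw f w a ^ 2)]
  · unfold FS FX
    have h1 : ∑ w ∈ C, Iw f w ^ 2 * ∑ a ∈ C, bw f w a ^ 2 =
        ∑ a ∈ C, ∑ w ∈ C, Iw f w ^ 2 * bw f w a ^ 2 := by
      rw [Finset.sum_comm]
      refine Finset.sum_congr rfl fun w _ => ?_
      rw [Finset.mul_sum]
    rw [h1, Finset.sum_sub_distrib]
    have h3 : (n : ℝ) + 1 ≠ 0 := by positivity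
    field_simp
    ring
  · intro a ha
    unfold FS
    rw [← Finset.sum_add_distrib, Finset.sum_div,
      ← Finset.add_sum_erase C (fun w => Iw f w ^ 2) ha,
      ← Finset.add_sum_erase C (fun w => Iw f w ^ 2 * bw f w a ^ 2) ha, bw_self]
    have h1 : ∀ x y z : ℝ, x + y - (x - (x * 0 ^ 2 + z)) = y + z := fun x y z => by ring
    rw [h1, ← Finset.sum_add_distrib]
    refine Finset.sum_congr rfl fun w hw => ?_
    have h2 := Finset.ne_of_mem_erase hw
    rw [Iw_rs f h2, Iw_rs f h2]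
    push_cast
    ring

lemma mv_FP (f : Cube n → ℝ) (C : Finset (Fin n)) :
    mv FP f C ≤ ((n : ℝ) / ((n : ℝ) + 1)) ^ 2 * FP f C := by
  have hFP : 0 ≤ FP f C := Finset.sum_nonneg fun w _ => Finset.sum_nonneg fun a _ => I2_nonneg f a w
  rw [mv_eq_of FP f C (fun c => ∑ w ∈ C, I2 f c w + ∑ a ∈ C, I2 f a c)]
  · have h1 : ∑ a ∈ C, (∑ w ∈ C, I2 f a w + ∑ b ∈ C, I2 f b a) = 2 * FP f C := by
      rw [Finset.sum_add_distrib]
      unfold FP
      rw [Finset.sum_comm]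
      ring
    rw [h1]
    have h3 : (0 : ℝ) < (n : ℝ) + 1 := by positivity
    have h4 : ((n : ℝ) / ((n : ℝ) + 1)) ^ 2 * FP f C - (FP f C - 2 * FP f C / ((n : ℝ) + 1)) =
        FP f C / ((n : ℝ) + 1) ^ 2 := by
      field_simp
      ring
    have h5 : 0 ≤ FP f C / ((n : ℝ) + 1) ^ 2 := by positivity
    linarith
  · intro c hc
    unfold FP
    rw [← Finset.sum_add_distrib, Finset.sum_div]
    have h1 : ∀ w ∈ C.erase c, (∑ a ∈ C.erase c, I2 (rs c 1 f) a w +
        ∑ a ∈ C.erase c, I2 (rs c (-1) f) a w) / 2 = ∑ a ∈ C.erase c, I2 f a w := by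
      intro w hw
      rw [← Finset.sum_add_distrib, Finset.sum_div]
      refine Finset.sum_congr rfl fun a ha => ?_
      exact I2_rs f (Finset.ne_of_mem_erase ha).symm (Finset.ne_of_mem_erase hw).symm
    rw [Finset.sum_congr rfl h1]
    have h2 : ∀ w, ∑ a ∈ C.erase c, I2 f a w = ∑ a ∈ C, I2 f a w - I2 f c w := by
      intro w
      rw [← Finset.add_sum_erase C (fun a => I2 f a w) hc]
      ring
    rw [Finset.sum_congr rfl fun w _ => h2 w, Finset.sum_sub_distrib]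
    have h3 : ∑ w ∈ C.erase c, ∑ a ∈ C, I2 f a w = ∑ w ∈ C, ∑ a ∈ C, I2 f a w -
        ∑ a ∈ C, I2 f a c := by
      rw [← Finset.add_sum_erase C (fun w => ∑ a ∈ C, I2 f a w) hc]
      ring
    have h4 : ∑ w ∈ C.erase c, I2 f c w = ∑ w ∈ C, I2 f c w := by
      rw [← Finset.add_sum_erase C (fun w => I2 f c w) hc, I2_self, zero_add]
    rw [h3, h4]
    ring

end Pool.Agent.AA2
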