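import Mathlib
import Pool.Agent.AA2.Rs

/-!
AA2 module RUN: the operators `mv`, `stp`, `run` are linear and monotone.

* `mv_mono`: every state `(rs a u f, C.erase a)` occurring in `mv Φ f C` satisfies `Bdd d` (`bdd_rs`);
  `n + 1 > 0`; `Finset.sum_le_sum`, `split_ifs`.
* `stp_mono`: `mv_mono` for `fun f C => Φ f (frz θ f C)`; the state `(f', frz θ f' C')` satisfies
  `Vd d θ`: `w ∈ frz θ f' C'` gives `Iw f' w < θ` (`Finset.mem_filter`).
* `run_mono`: induction on `k` (generalizing `Φ Ψ`), `stp_mono`.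
* linearity: unfold, `Finset.sum_add_distrib` etc.; for `mv_const` note that the sum over `a : Fin n`
  of the constant is `n * c`.
-/

set_option linter.dupNamespace false

namespace Pool.Agent.AA2

open Finset Pool.Agent.Helper11.Cube Pool.Agent.Helper11.AA Pool.Agent.SUB Pool.Agent.QAA

variable {n d : ℕ}

lemma mv_mono {Φ Ψ : Fn n} (h : ∀ f C, Bdd d f → Φ f C ≤ Ψ f C) {f : Cube n → ℝ}
    (hf : Bdd d f) (C : Finset (Fin n)) : mv Φ f C ≤ mv Ψ f C := by
  unfold mv
  refine div_le_div_of_nonneg_right (add_le_add (h _ _ hf) (Finset.sum_le_sum fun a _ => ?_))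
    (by positivity)
  split_ifs
  · have h1 := h _ (C.erase a) (bdd_rs hf a 1)
    have h2 := h _ (C.erase a) (bdd_rs hf a (-1))
    linarith
  · exact h _ _ hf

lemma mv_add (Φ Ψ : Fn n) (f : Cube n → ℝ) (C : Finset (Fin n)) :
    mv (fun f C => Φ f C + Ψ f C) f C = mv Φ f C + mv Ψ f C := by
  unfold mv
  rw [← add_div]
  congr 1
  have h : ∀ a : Fin n, (if a ∈ C then ((Φ (rs a 1 f) (C.erase a) + Ψ (rs a 1 f) (C.erase a)) +
      (Φ (rs a (-1) f) (C.erase a) + Ψ (rs a (-1) f) (C.erase a))) / 2 else Φ f C + Ψ f C) =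
      (if a ∈ C then (Φ (rs a 1 f) (C.erase a) + Φ (rs a (-1) f) (C.erase a)) / 2 else Φ f C) +
      (if a ∈ C then (Ψ (rs a 1 f) (C.erase a) + Ψ (rs a (-1) f) (C.erase a)) / 2 else Ψ f C) := by
    intro a
    split_ifs
    · ring
    · ring
  rw [Finset.sum_congr rfl fun a _ => h a, Finset.sum_add_distrib]
  ring

lemma mv_const_mul (c : ℝ) (Φ : Fn n) (f : Cube n → ℝ) (C : Finset (Fin n)) :
    mv (fun f C => c * Φ f C) f C = c * mv Φ f C := by
  unfold mv
  rw [← mul_div_assoc]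
  congr 1
  rw [mul_add, Finset.mul_sum]
  congr 1
  refine Finset.sum_congr rfl fun a _ => ?_
  split_ifs
  · ring
  · ring

lemma mv_const (c : ℝ) (f : Cube n → ℝ) (C : Finset (Fin n)) :
    mv (fun _ _ => c) f C = c := by
  unfold mv
  have h : ∀ a : Fin n, (if a ∈ C then (c + c) / 2 else c) = c := by
    intro a
    split_ifs
    · ring
    · rfl
  rw [Finset.sum_congr rfl fun a _ => h a, Finset.sum_const, Finset.card_univ, Fintype.card_fin,
    nsmul_eq_mul]
  have h1 : (n : ℝ) + 1 ≠ 0 := by positivity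
  field_simp
  ring

lemma stp_mono {Φ Ψ : Fn n} {θ : ℝ} (h : ∀ f C, Vd d θ f C → Φ f C ≤ Ψ f C)
    {f : Cube n → ℝ} (hf : Bdd d f) (C : Finset (Fin n)) : stp θ Φ f C ≤ stp θ Ψ f C := by
  unfold stp
  exact mv_mono (fun g D hg => h _ _ ⟨hg, fun w hw => (Finset.mem_filter.1 hw).2⟩) hf C

lemma stp_add (θ : ℝ) (Φ Ψ : Fn n) (f : Cube n → ℝ) (C : Finset (Fin n)) :
    stp θ (fun f C => Φ f C + Ψ f C) f C = stp θ Φ f C + stp θ Ψ f C :=
  mv_add (fun f C => Φ f (frz θ f C)) (fun f C => Ψ f (frz θ f C)) f C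

lemma stp_const_mul (θ c : ℝ) (Φ : Fn n) (f : Cube n → ℝ) (C : Finset (Fin n)) :
    stp θ (fun f C => c * Φ f C) f C = c * stp θ Φ f C :=
  mv_const_mul c (fun f C => Φ f (frz θ f C)) f C

lemma stp_const (θ c : ℝ) (f : Cube n → ℝ) (C : Finset (Fin n)) :
    stp θ (fun _ _ => c) f C = c := mv_const c f C

lemma run_mono (θ : ℕ → ℝ) (k : ℕ) {Φ Ψ : Fn n} (h : ∀ f C, Vd d (θ k) f C → Φ f C ≤ Ψ f C)
    {f : Cube n → ℝ} {C : Finset (Fin n)} (hV : Vd d (θ 0) f C) : run θ k Φ f C ≤ run θ k Ψ f C := by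
  induction k generalizing Φ Ψ with
  | zero => exact h f C hV
  | succ k ih =>
    unfold run
    exact ih fun g D hg => stp_mono h hg.1 D

lemma run_add (θ : ℕ → ℝ) (k : ℕ) (Φ Ψ : Fn n) (f : Cube n → ℝ) (C : Finset (Fin n)) :
    run θ k (fun f C => Φ f C + Ψ f C) f C = run θ k Φ f C + run θ k Ψ f C := by
  induction k generalizing Φ Ψ with
  | zero => rfl
  | succ k ih =>
    unfold run
    rw [← ih]
    congr 1
    ext g D
    exact stp_add _ Φ Ψ g D

lemma run_const_mul (θ : ℕ → ℝ) (k : ℕ) (c : ℝ) (Φ : Fn n) (f : Cube n → ℝ)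
    (C : Finset (Fin n)) : run θ k (fun f C => c * Φ f C) f C = c * run θ k Φ f C := by
  induction k generalizing Φ with
  | zero => rfl
  | succ k ih =>
    unfold run
    rw [← ih]
    congr 1
    ext g D
    exact stp_const_mul _ c Φ g D

lemma run_const (θ : ℕ → ℝ) (k : ℕ) (c : ℝ) (f : Cube n → ℝ) (C : Finset (Fin n)) :
    run θ k (fun _ _ => c) f C = c := by
  induction k with
  | zero => rfl
  | succ k ih =>
    unfold run
    have h : stp (θ (k + 1)) (fun _ _ => c) = (fun (_ : Cube n → ℝ) (_ : Finset (Fin n)) => c) := by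
      ext g D
      exact stp_const _ c g D
    rw [h]
    exact ih

end Pool.Agent.AA2
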