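import Mathlib
import Pool.Agent.AA2.Run
import Pool.Agent.AA2.Mv
import Pool.Agent.AA2.Local

/-!
AA2 module STEP: one step of the process for the three functionals. Let `N1 = n + 1`,
`λ = lam n = N1/n`, `n ≥ 1`.

* `step_G`: with `θ' = θ (1 + λ S/N1)`, `S = 1 + 2T`. Pointwise (for every state `(f', C')`)
  `FO f' (frz θ' f' C') + μ λ/θ' FS f' (frz θ' f' C') ≤ FO f' C' + μ λ/θ' FS f' C'`... provided
  `μ λ ≥ 1`: a coordinate `w ∈ C'` with `Iw ≥ θ'` contributes `Iw` on the left and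
  `μ λ Iw^2/θ' ≥ Iw` on the right. Then `mv` (`mv_add`, `mv_const_mul`, `mv_FO`, `mv_FS`) gives
  `FO + μ λ/θ' (n/N1 FS + FX/N1) = FO + μ/θ' (FS + λ/N1 FX)` as `λ n/N1 = 1`, and by `local_ineq`
  `FS + λ/N1 FX ≤ FS (1 + λ S/N1) + λ/N1 θ Er`, and `θ ≤ θ'`.
* `step_U`: pointwise `μ λ FI(frz) + L FO(frz) ≥ μ λ FI + L FO` if `μ λ ≤ L`; then `mv_FI`, `mv_FO`.
* `step_P`: `FP` decreases under `frz` (nonnegative terms, subset), then `mv_FP`.
-/

set_option linter.dupNamespace false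

namespace Pool.Agent.AA2

open Finset Pool.Agent.Helper11.Cube Pool.Agent.Helper11.AA Pool.Agent.SUB Pool.Agent.QAA

variable {n d : ℕ}

private lemma lam_mul (hn : 1 ≤ n) : lam n * ((n : ℝ) / ((n : ℝ) + 1)) = 1 := by
  have h1 : (0 : ℝ) < n := by exact_mod_cast hn
  unfold lam
  field_simp

private lemma lam_ge (hn : 1 ≤ n) : 1 ≤ lam n := by
  have h1 : (0 : ℝ) < n := by exact_mod_cast hn
  unfold lam
  rw [le_div_iff₀ h1]
  linarith

private lemma FO_eq (f : Cube n → ℝ) (C : Finset (Fin n)) : FO f C = (∑ w, Iw f w) - FI f C := by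
  unfold FO FI
  have h := Finset.sum_compl_add_sum C (fun w => Iw f w)
  linarith

private lemma FI_frz (θ : ℝ) (f : Cube n → ℝ) (C : Finset (Fin n)) :
    FI f C = FI f (frz θ f C) + ∑ w ∈ C.filter (fun w => ¬ Iw f w < θ), Iw f w := by
  unfold FI frz
  exact (Finset.sum_filter_add_sum_filter_not C (fun w => Iw f w < θ) (fun w => Iw f w)).symm

private lemma FS_frz (θ : ℝ) (f : Cube n → ℝ) (C : Finset (Fin n)) :
    FS f C = FS f (frz θ f C) + ∑ w ∈ C.filter (fun w => ¬ Iw f w < θ), Iw f w ^ 2 := by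
  unfold FS frz
  exact (Finset.sum_filter_add_sum_filter_not C (fun w => Iw f w < θ) (fun w => Iw f w ^ 2)).symm

private lemma Er_nonneg {β : ℝ} (hβ : 0 < β) (T : ℕ) : 0 ≤ Er d β T := by
  unfold Er
  positivity

theorem step_G (hn : 1 ≤ n) (hd : 1 ≤ d) {β θ μ : ℝ} (hβ : 0 < β) (hβ1 : β ≤ 1) (hθ : 0 < θ)
    (hμ : 1 ≤ μ) (T : ℕ) {f : Cube n → ℝ} {C : Finset (Fin n)} (hV : Vd d θ f C) :
    stp (θ * (1 + lam n * (1 + 2 * (T : ℝ)) / ((n : ℝ) + 1)))
      (fun f C => FO f C + μ * lam n / (θ * (1 + lam n * (1 + 2 * (T : ℝ)) / ((n : ℝ) + 1))) * FS f C)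
      f C ≤ FO f C + μ / θ * FS f C + μ * lam n / ((n : ℝ) + 1) * Er d β T := by
  have hn0 : (0 : ℝ) < (n : ℝ) + 1 := by positivity
  have hl1 := lam_ge hn
  have hl0 : (0 : ℝ) < lam n := by linarith
  have hμ0 : (0 : ℝ) < μ := by linarith
  have hS0 : (0 : ℝ) ≤ 1 + 2 * (T : ℝ) := by positivity
  obtain ⟨δ, hδ⟩ : ∃ δ : ℝ, δ = lam n * (1 + 2 * (T : ℝ)) / ((n : ℝ) + 1) := ⟨_, rfl⟩
  have hδ0 : 0 ≤ δ := by
    rw [hδ]
    positivity
  rw [← hδ]
  obtain ⟨θ', hθ'⟩ : ∃ θ' : ℝ, θ' = θ * (1 + δ) := ⟨_, rfl⟩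
  rw [← hθ']
  have hθ'0 : 0 < θ' := by
    rw [hθ']
    positivity
  have hθθ' : θ ≤ θ' := by
    rw [hθ']
    nlinarith
  -- pointwise
  have hpt : ∀ (f : Cube n → ℝ) (C : Finset (Fin n)), Bdd d f →
      FO f (frz θ' f C) + μ * lam n / θ' * FS f (frz θ' f C) ≤
        FO f C + μ * lam n / θ' * FS f C := by
    intro f C _
    rw [FO_eq, FO_eq f C, FI_frz θ' f C, FS_frz θ' f C, mul_add]
    have h1 : ∑ w ∈ C.filter (fun w => ¬ Iw f w < θ'), Iw f w ≤
        μ * lam n / θ' * ∑ w ∈ C.filter (fun w => ¬ Iw f w < θ'), Iw f w ^ 2 := by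
      rw [Finset.mul_sum]
      refine Finset.sum_le_sum fun w hw => ?_
      have e1 : θ' ≤ Iw f w := not_lt.mp (Finset.mem_filter.mp hw).2
      have e2 := Iw_nonneg f w
      have e3 : 1 ≤ μ * lam n := by nlinarith
      have e4 : 1 ≤ μ * lam n / θ' * Iw f w := by
        rw [div_mul_eq_mul_div, le_div_iff₀ hθ'0]
        nlinarith
      calc Iw f w = 1 * Iw f w := (one_mul _).symm
        _ ≤ μ * lam n / θ' * Iw f w * Iw f w := mul_le_mul_of_nonneg_right e4 e2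
        _ = μ * lam n / θ' * Iw f w ^ 2 := by ring
    linarith
  have h1 : stp θ' (fun f C => FO f C + μ * lam n / θ' * FS f C) f C ≤
      mv (fun f C => FO f C + μ * lam n / θ' * FS f C) f C :=
    mv_mono (d := d) (fun f C hf => hpt f C hf) hV.1 C
  refine h1.trans ?_
  rw [mv_add FO (fun f C => μ * lam n / θ' * FS f C), mv_const_mul, mv_FO, mv_FS]
  have hloc := local_ineq hd hV.1 hβ hβ1 hθ hV.2 T
  have hFS0 : 0 ≤ FS f C := Finset.sum_nonneg fun w _ => sq_nonneg _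
  have hEr := Er_nonneg (d := d) hβ T
  have hlm := lam_mul hn
  have h2 : μ * lam n / θ' * (1 / ((n : ℝ) + 1) * FX f C) ≤
      μ * lam n / θ' * (1 / ((n : ℝ) + 1) * ((1 + 2 * (T : ℝ)) * FS f C + θ * Er d β T)) := by
    refine mul_le_mul_of_nonneg_left ?_ (by positivity)
    exact mul_le_mul_of_nonneg_left hloc (by positivity)
  have h3 : μ * lam n / θ' * ((n : ℝ) / ((n : ℝ) + 1) * FS f C) = μ / θ' * FS f C := by
    calc μ * lam n / θ' * ((n : ℝ) / ((n : ℝ) + 1) * FS f C)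
        = μ / θ' * (lam n * ((n : ℝ) / ((n : ℝ) + 1))) * FS f C := by ring
      _ = μ / θ' * FS f C := by rw [hlm, mul_one]
  have h4 : μ * lam n / θ' * (1 / ((n : ℝ) + 1) * ((1 + 2 * (T : ℝ)) * FS f C + θ * Er d β T)) =
      μ / θ' * δ * FS f C + μ * lam n / ((n : ℝ) + 1) * Er d β T * (θ / θ') := by
    rw [hδ]
    ring
  have h5 : μ / θ' * FS f C + μ / θ' * δ * FS f C = μ / θ * FS f C := by
    have : μ / θ' * (1 + δ) = μ / θ := by
      rw [hθ']
      have h6 : (1 + δ) ≠ 0 := by positivity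
      field_simp
    calc μ / θ' * FS f C + μ / θ' * δ * FS f C = μ / θ' * (1 + δ) * FS f C := by ring
      _ = μ / θ * FS f C := by rw [this]
  have h6 : μ * lam n / ((n : ℝ) + 1) * Er d β T * (θ / θ') ≤
      μ * lam n / ((n : ℝ) + 1) * Er d β T := by
    refine mul_le_of_le_one_right (by positivity) ?_
    exact (div_le_one hθ'0).mpr hθθ'
  rw [mul_add]
  linarith

theorem step_U (hn : 1 ≤ n) {θ μ L : ℝ} (hμ : 0 ≤ μ) (hL : μ * lam n ≤ L) {f : Cube n → ℝ}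
    (hf : Bdd d f) (C : Finset (Fin n)) :
    μ * FI f C + L * FO f C ≤ stp θ (fun f C => μ * lam n * FI f C + L * FO f C) f C := by
  have hpt : ∀ (f : Cube n → ℝ) (C : Finset (Fin n)), Bdd d f →
      μ * lam n * FI f C + L * FO f C ≤
        μ * lam n * FI f (frz θ f C) + L * FO f (frz θ f C) := by
    intro f C _
    rw [FO_eq, FO_eq f (frz θ f C), FI_frz θ f C]
    have h1 : 0 ≤ ∑ w ∈ C.filter (fun w => ¬ Iw f w < θ), Iw f w :=
      Finset.sum_nonneg fun w _ => Iw_nonneg f w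
    nlinarith [mul_nonneg (sub_nonneg.mpr hL) h1]
  have h1 : mv (fun f C => μ * lam n * FI f C + L * FO f C) f C ≤
      stp θ (fun f C => μ * lam n * FI f C + L * FO f C) f C :=
    mv_mono (d := d) (fun f C hf => hpt f C hf) hf C
  refine le_trans (le_of_eq ?_) h1
  rw [mv_add (fun f C => μ * lam n * FI f C) (fun f C => L * FO f C), mv_const_mul,
    mv_const_mul, mv_FO, mv_FI]
  have hlm := lam_mul hn
  calc μ * FI f C + L * FO f C
      = μ * (lam n * ((n : ℝ) / ((n : ℝ) + 1))) * FI f C + L * FO f C := by rw [hlm, mul_one]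
    _ = μ * lam n * ((n : ℝ) / ((n : ℝ) + 1) * FI f C) + L * FO f C := by ring

theorem step_P (hn : 1 ≤ n) {θ μ : ℝ} (hμ : 0 ≤ μ) {f : Cube n → ℝ} (hf : Bdd d f)
    (C : Finset (Fin n)) :
    stp θ (fun f C => μ * lam n ^ 2 * FP f C) f C ≤ μ * FP f C := by
  have hl : 0 ≤ μ * lam n ^ 2 := mul_nonneg hμ (sq_nonneg _)
  have hpt : ∀ (f : Cube n → ℝ) (C : Finset (Fin n)), Bdd d f →
      μ * lam n ^ 2 * FP f (frz θ f C) ≤ μ * lam n ^ 2 * FP f C := by
    intro f C _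
    refine mul_le_mul_of_nonneg_left ?_ hl
    unfold FP
    have hsub : frz θ f C ⊆ C := Finset.filter_subset _ _
    refine (Finset.sum_le_sum fun w _ => Finset.sum_le_sum_of_subset_of_nonneg hsub
      (fun a _ _ => I2_nonneg f a w)).trans ?_
    exact Finset.sum_le_sum_of_subset_of_nonneg hsub
      (fun w _ _ => Finset.sum_nonneg fun a _ => I2_nonneg f a w)
  have h1 : stp θ (fun f C => μ * lam n ^ 2 * FP f C) f C ≤
      mv (fun f C => μ * lam n ^ 2 * FP f C) f C :=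
    mv_mono (d := d) (fun f C hf => hpt f C hf) hf C
  refine h1.trans ?_
  rw [mv_const_mul]
  refine (mul_le_mul_of_nonneg_left (mv_FP f C) hl).trans (le_of_eq ?_)
  have hlm := lam_mul hn
  calc μ * lam n ^ 2 * (((n : ℝ) / ((n : ℝ) + 1)) ^ 2 * FP f C)
      = μ * (lam n * ((n : ℝ) / ((n : ℝ) + 1))) ^ 2 * FP f C := by ring
    _ = μ * FP f C := by rw [hlm, one_pow, mul_one]

end Pool.Agent.AA2
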