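import Mathlib
import Pool.Agent.AA2.Step

/-!
AA2 module DRIFT: the three functionals along the process. `th n θ0 S (k+1) = th n θ0 S k *
(1 + lam n * S/(n+1))`, `th n θ0 S 0 = θ0`, `S = 1 + 2T`.

* `run_G`: induction on `k` of
  `run (th ..) k (fun f C => FO f C + lam n ^ k/(th .. k) * FS f C) f C
    ≤ FO f C + FS f C/θ0 + (lam n ^ k - 1) * Er d β T`:
  `run .. (k+1) Φ = run .. k (stp (th (k+1)) Φ)`, `run_mono` with `step_G` (`μ = lam n ^ k`,
  `θ = th k`), `run_add`, `run_const`, and `lam^k * lam/(n+1) = lam^(k+1) - lam^k`.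
* `run_U`: for `k ≤ N` and `L = lam n ^ N`: `FI f C + L FO f C ≤ run .. k (lam^k FI + L FO) f C`;
  take `k = N`.
* `run_P`: `run .. k (lam^(2k) FP) f C ≤ FP f C`.
-/

set_option linter.dupNamespace false

namespace Pool.Agent.AA2

open Finset Pool.Agent.Helper11.Cube Pool.Agent.Helper11.AA Pool.Agent.SUB Pool.Agent.QAA

variable {n d : ℕ}

lemma lam_pos (hn : 1 ≤ n) : 0 < lam n := by
  have h : (1 : ℝ) ≤ n := by exact_mod_cast hn
  unfold lam
  positivity

lemma one_le_lam (hn : 1 ≤ n) : 1 ≤ lam n := by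
  have h : (1 : ℝ) ≤ n := by exact_mod_cast hn
  unfold lam
  rw [le_div_iff₀ (by linarith)]
  linarith

lemma lam_step (hn : 1 ≤ n) (k : ℕ) :
    lam n ^ k * lam n / ((n : ℝ) + 1) = lam n ^ (k + 1) - lam n ^ k := by
  have h : (1 : ℝ) ≤ n := by exact_mod_cast hn
  have h1 : lam n / ((n : ℝ) + 1) = lam n - 1 := by
    unfold lam
    field_simp
    ring
  rw [mul_div_assoc, h1, pow_succ]
  ring

theorem run_G (hn : 1 ≤ n) (hd : 1 ≤ d) {β θ0 : ℝ} (hβ : 0 < β) (hβ1 : β ≤ 1) (hθ : 0 < θ0)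
    (T : ℕ) {f : Cube n → ℝ} {C : Finset (Fin n)} (hV : Vd d θ0 f C) (N : ℕ) :
    run (th n θ0 (1 + 2 * (T : ℝ))) N
      (fun f C => FO f C + lam n ^ N / th n θ0 (1 + 2 * (T : ℝ)) N * FS f C) f C
      ≤ FO f C + 1 / θ0 * FS f C + (lam n ^ N - 1) * Er d β T := by
  have hlam := lam_pos hn
  have hq : 0 < 1 + lam n * (1 + 2 * (T : ℝ)) / ((n : ℝ) + 1) := by positivity
  have hth : ∀ k, 0 < th n θ0 (1 + 2 * (T : ℝ)) k := by
    intro k
    unfold th
    positivity
  have hV0 : Vd d (th n θ0 (1 + 2 * (T : ℝ)) 0) f C := by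
    have h : th n θ0 (1 + 2 * (T : ℝ)) 0 = θ0 := by
      unfold th
      rw [pow_zero, mul_one]
    rw [h]
    exact hV
  induction N with
  | zero =>
    have h : th n θ0 (1 + 2 * (T : ℝ)) 0 = θ0 := by
      unfold th
      rw [pow_zero, mul_one]
    simp only [run, pow_zero, h]
    linarith
  | succ k ih =>
    have hsucc : th n θ0 (1 + 2 * (T : ℝ)) (k + 1) = th n θ0 (1 + 2 * (T : ℝ)) k *
        (1 + lam n * (1 + 2 * (T : ℝ)) / ((n : ℝ) + 1)) := by
      unfold th
      rw [pow_succ]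
      ring
    have h1 : run (th n θ0 (1 + 2 * (T : ℝ))) (k + 1)
        (fun f C => FO f C + lam n ^ (k + 1) / th n θ0 (1 + 2 * (T : ℝ)) (k + 1) * FS f C) f C
        ≤ run (th n θ0 (1 + 2 * (T : ℝ))) k
          (fun f C => (FO f C + lam n ^ k / th n θ0 (1 + 2 * (T : ℝ)) k * FS f C)
            + (lam n ^ (k + 1) - lam n ^ k) * Er d β T) f C := by
      refine run_mono (d := d) _ k ?_ hV0
      intro g D hg
      have h2 := step_G hn hd hβ hβ1 (hth k) (one_le_pow₀ (one_le_lam hn) : 1 ≤ lam n ^ k) T hg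
      rw [← hsucc, lam_step hn k, ← pow_succ] at h2
      exact h2
    refine h1.trans ?_
    rw [run_add, run_const]
    linarith

theorem run_U (hn : 1 ≤ n) {θ : ℕ → ℝ} {f : Cube n → ℝ} {C : Finset (Fin n)}
    (hV : Vd d (θ 0) f C) (N : ℕ) :
    FI f C + lam n ^ N * FO f C
      ≤ run θ N (fun f C => lam n ^ N * FI f C + lam n ^ N * FO f C) f C := by
  have hlam := lam_pos hn
  have key : ∀ k, k ≤ N → FI f C + lam n ^ N * FO f C
      ≤ run θ k (fun f C => lam n ^ k * FI f C + lam n ^ N * FO f C) f C := by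
    intro k
    induction k with
    | zero =>
      intro _
      simp only [run, pow_zero, one_mul]
      exact le_rfl
    | succ k ih =>
      intro hk
      refine (ih (by omega)).trans ?_
      change _ ≤ run θ k (stp (θ (k + 1)) _) f C
      refine run_mono (d := d) θ k ?_ hV
      intro g D hg
      have h2 := step_U (θ := θ (k + 1)) (μ := lam n ^ k) (L := lam n ^ N) hn (by positivity)
        (by
          rw [← pow_succ]
          exact pow_le_pow_right₀ (one_le_lam hn) hk) hg.1 D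
      rw [← pow_succ] at h2
      exact h2
  exact key N le_rfl

theorem run_P (hn : 1 ≤ n) {θ : ℕ → ℝ} {f : Cube n → ℝ} {C : Finset (Fin n)}
    (hV : Vd d (θ 0) f C) (N : ℕ) :
    run θ N (fun f C => (lam n ^ N) ^ 2 * FP f C) f C ≤ FP f C := by
  have hlam := lam_pos hn
  induction N with
  | zero =>
    simp only [run, pow_zero, one_pow, one_mul]
    exact le_rfl
  | succ k ih =>
    refine le_trans ?_ ih
    change run θ k (stp (θ (k + 1)) _) f C ≤ _
    refine run_mono (d := d) θ k ?_ hV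
    intro g D hg
    have h2 := step_P (θ := θ (k + 1)) (μ := (lam n ^ k) ^ 2) hn (by positivity) hg.1 D
    have h3 : (lam n ^ k) ^ 2 * lam n ^ 2 = (lam n ^ (k + 1)) ^ 2 := by
      rw [pow_succ (lam n) k, mul_pow]
    rw [h3] at h2
    exact h2

end Pool.Agent.AA2
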