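import Mathlib
import Pool.Agent.AA2.Rs
import Pool.Agent.QAA.FinLow

/-!
AA2 module FIN: the influences of a state at the end of the process.

* `Iw_split`: for `g = D_w f`: `Iw f w = ex (g^2) = (ex g)^2 + variance g` (`variance_eq` or the
  definition of `variance` in `Helper11.AADefs`), and the Poincare inequality (`poincare` in
  `Helper11.AADefs`) `variance g ≤ ∑_a ex ((D_a g)^2) = ∑_a I2 f a w`.
* `end_point`: for `(f, C)` with `Vd d θ f C`: sum `Iw_split` over `w ∈ C`;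
  `∑_{w∈C} ∑_a I2 f a w = FP f C + ∑_{a ∉ C} ∑_{w∈C} I2 f a w ≤ FP f C + d * FO f C` (`sum_I2_le`);
  `(ex g)^2 ≤ Iw f w < θ` (`ex_sq_le`), so `(ex g)^2 ≤ sqrt θ * |ex g| ≤ sqrt θ * ex |g|`, and
  `∑_w ex |D_w f| ≤ 2 d^2` (`sum_abs_deriv`, `ex_sum`, `ex_mono`).
-/

set_option linter.dupNamespace false

namespace Pool.Agent.AA2

open Finset Pool.Agent.Helper11.Cube Pool.Agent.Helper11.AA Pool.Agent.SUB Pool.Agent.QAA

variable {n d : ℕ}

lemma Iw_split (f : Cube n → ℝ) (w : Fin n) :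
    Iw f w ≤ ex (discreteDeriv w f) ^ 2 + ∑ a, I2 f a w := by
  have h1 := poincare (discreteDeriv w f)
  rw [variance_eq] at h1
  have h2 : Iw f w = ex (fun x => discreteDeriv w f x ^ 2) := rfl
  have h3 : ∑ a, I2 f a w = ∑ a, ex (fun x => discreteDeriv a (discreteDeriv w f) x ^ 2) := rfl
  rw [h2, h3]
  linarith

theorem end_point {θ : ℝ} (hθ : 0 < θ) {f : Cube n → ℝ} {C : Finset (Fin n)} (hV : Vd d θ f C) :
    FI f C ≤ 2 * (d : ℝ) ^ 2 * Real.sqrt θ + FP f C + (d : ℝ) * FO f C := by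
  obtain ⟨hf, hC⟩ := hV
  have hpt : ∀ w ∈ C, ex (discreteDeriv w f) ^ 2 ≤
      Real.sqrt θ * ex (fun x => |discreteDeriv w f x|) := by
    intro w hw
    have h1 : |ex (discreteDeriv w f)| ≤ ex (fun x => |discreteDeriv w f x|) := abs_ex_le _
    have h2 : ex (discreteDeriv w f) ^ 2 ≤ Iw f w := ex_sq_le _
    have h3 : |ex (discreteDeriv w f)| ≤ Real.sqrt θ :=
      Real.abs_le_sqrt (h2.trans (hC w hw).le)
    rw [← sq_abs, sq]
    exact mul_le_mul h3 h1 (abs_nonneg _) (Real.sqrt_nonneg _)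
  have hsum : ∑ w ∈ C, ex (fun x => |discreteDeriv w f x|) ≤ 2 * (d : ℝ) ^ 2 := by
    calc ∑ w ∈ C, ex (fun x => |discreteDeriv w f x|)
        ≤ ∑ w, ex (fun x => |discreteDeriv w f x|) :=
          Finset.sum_le_sum_of_subset_of_nonneg (Finset.subset_univ C)
            (fun w _ _ => ex_nonneg (fun x => abs_nonneg _))
      _ = ex (fun x => ∑ w, |discreteDeriv w f x|) := by rw [← ex_sum]
      _ ≤ ex (fun _ : Cube n => 2 * (d : ℝ) ^ 2) := ex_mono (fun x => sum_abs_deriv hf x)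
      _ = 2 * (d : ℝ) ^ 2 := ex_const _
  have hs : ∑ w ∈ C, ex (discreteDeriv w f) ^ 2 ≤ 2 * (d : ℝ) ^ 2 * Real.sqrt θ := by
    calc ∑ w ∈ C, ex (discreteDeriv w f) ^ 2
        ≤ ∑ w ∈ C, Real.sqrt θ * ex (fun x => |discreteDeriv w f x|) :=
          Finset.sum_le_sum hpt
      _ = Real.sqrt θ * ∑ w ∈ C, ex (fun x => |discreteDeriv w f x|) := by
          rw [Finset.mul_sum]
      _ ≤ Real.sqrt θ * (2 * (d : ℝ) ^ 2) :=
          mul_le_mul_of_nonneg_left hsum (Real.sqrt_nonneg _)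
      _ = 2 * (d : ℝ) ^ 2 * Real.sqrt θ := by ring
  have hI : ∑ w ∈ C, ∑ a, I2 f a w ≤ FP f C + (d : ℝ) * FO f C := by
    have h1 : ∑ w ∈ C, ∑ a, I2 f a w =
        FP f C + ∑ a ∈ Cᶜ, ∑ w ∈ C, I2 f a w := by
      unfold FP
      rw [Finset.sum_comm (s := Cᶜ), ← Finset.sum_add_distrib]
      exact Finset.sum_congr rfl fun w _ => (Finset.sum_add_sum_compl C _).symm
    have h2 : ∑ a ∈ Cᶜ, ∑ w ∈ C, I2 f a w ≤ (d : ℝ) * FO f C := by
      unfold FO
      rw [Finset.mul_sum]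
      exact Finset.sum_le_sum fun a _ => sum_I2_le hf C a
    linarith
  have hF : FI f C ≤ ∑ w ∈ C, (ex (discreteDeriv w f) ^ 2 + ∑ a, I2 f a w) :=
    Finset.sum_le_sum fun w _ => Iw_split f w
  rw [Finset.sum_add_distrib] at hF
  linarith

/-- The variance is at most the total influence. -/
lemma variance_le_FI (f : Cube n → ℝ) : variance f ≤ FI f univ :=
  poincare f

lemma FP_univ_le {f : Cube n → ℝ} (hf : Bdd d f) : FP f univ ≤ (d : ℝ) * FI f univ := by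
  unfold FP FI
  rw [Finset.sum_comm, Finset.mul_sum]
  exact Finset.sum_le_sum fun a _ => sum_I2_le hf univ a

lemma FS_univ_le {f : Cube n → ℝ} (hf : Bdd d f) :
    FS f univ ≤ maxDerivNorm f ^ 2 * (2 * (d : ℝ) ^ 2) := by
  unfold FS
  calc ∑ w, Iw f w ^ 2 ≤ ∑ w, maxDerivNorm f ^ 2 * Iw f w := by
        refine Finset.sum_le_sum fun w _ => ?_
        rw [sq (Iw f w)]
        exact mul_le_mul_of_nonneg_right (Iw_le_max f w) (Iw_nonneg f w)
    _ = maxDerivNorm f ^ 2 * ∑ w, Iw f w := by rw [Finset.mul_sum]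
    _ ≤ maxDerivNorm f ^ 2 * (2 * (d : ℝ) ^ 2) :=
        mul_le_mul_of_nonneg_left (sum_Iw_le hf univ) (sq_nonneg _)

end Pool.Agent.AA2
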