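import Mathlib
import Pool.Agent.AA2.Drift
import Pool.Agent.AA2.Fin

/-!
AA2 module GAME: the inequality at the end of the process. `L = lam n ^ N`, `8 d ≤ L ≤ 16 d`,
`θN = th n θ0 (1 + 2T) N`, `M = maxDerivNorm f`, state `(f, univ)`, `Vd d θ0 f univ` because
`Iw f w ≤ M^2 < θ0` (`Iw_le_max`). `FO f univ = 0`.

`run_U`: `FI f univ ≤ run N (L FI + L FO)`; `end_point` (multiplied by `L`) and `run_mono`, `run_add`,
`run_const_mul`, `run_const`:
`≤ L 2 d^2 sqrt θN + (1/L) run N (L^2 FP) + L (d+1) run N FO`.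
`run_P`, `FP_univ_le`: `(1/L) run N (L^2 FP) ≤ (1/L) d FI f univ ≤ FI f univ/8`.
`run N FO ≤ run N (FO + L/θN FS)` (`run_mono`, `FS ≥ 0`) `≤ 1/θ0 FS f univ + (L-1) Er ≤
2 d^2 M^2/θ0 + 16 d Er` (`run_G`, `FS_univ_le`). So
`7/8 FI ≤ 32 d^3 sqrt θN + 32 d^2 (2 d^2 M^2/θ0 + 16 d Er)`; and `variance f ≤ FI f univ`.
-/

set_option linter.dupNamespace false

namespace Pool.Agent.AA2

open Finset Pool.Agent.Helper11.Cube Pool.Agent.Helper11.AA Pool.Agent.SUB Pool.Agent.QAA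

variable {n d : ℕ}

theorem end_game (hn : 1 ≤ n) (hd : 1 ≤ d) {f : Cube n → ℝ} (hf : Bdd d f) {β θ0 : ℝ}
    (hβ : 0 < β) (hβ1 : β ≤ 1) (T N : ℕ) (hθ : maxDerivNorm f ^ 2 < θ0)
    (hN1 : 8 * (d : ℝ) ≤ lam n ^ N) (hN2 : lam n ^ N ≤ 16 * (d : ℝ)) :
    7 / 8 * variance f ≤ 32 * (d : ℝ) ^ 3 * Real.sqrt (th n θ0 (1 + 2 * (T : ℝ)) N)
      + 32 * (d : ℝ) ^ 2 * (2 * (d : ℝ) ^ 2 * maxDerivNorm f ^ 2 / θ0 + 16 * (d : ℝ) * Er d β T) := by
  have hd1 : (1 : ℝ) ≤ d := by exact_mod_cast hd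
  have hd0 : (0 : ℝ) < d := by linarith
  have hθ0 : 0 < θ0 := lt_of_le_of_lt (sq_nonneg _) hθ
  have hlam := lam_pos hn
  obtain ⟨L, hL⟩ : ∃ L : ℝ, L = lam n ^ N := ⟨_, rfl⟩
  have hL0 : 0 < L := by rw [hL]; positivity
  rw [← hL] at hN1 hN2
  set θ := th n θ0 (1 + 2 * (T : ℝ)) with hθdef
  have hthpos : ∀ k, 0 < θ k := by
    intro k
    rw [hθdef]
    unfold th
    have hq : 0 < 1 + lam n * (1 + 2 * (T : ℝ)) / ((n : ℝ) + 1) := by positivity
    positivity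
  have hVd : Vd d θ0 f univ := ⟨hf, fun w _ => lt_of_le_of_lt (Iw_le_max f w) hθ⟩
  have hVd0 : Vd d (θ 0) f univ := by
    have h : θ 0 = θ0 := by
      rw [hθdef]
      unfold th
      rw [pow_zero, mul_one]
    rw [h]
    exact hVd
  have hFO0 : FO f univ = 0 := by
    unfold FO
    rw [Finset.compl_univ, Finset.sum_empty]
  have hEr : 0 ≤ Er d β T := by
    unfold Er
    positivity
  have hFInn : ∀ (g : Cube n → ℝ) (D : Finset (Fin n)), 0 ≤ FS g D := fun g D =>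
    Finset.sum_nonneg (fun w _ => sq_nonneg _)
  have hU := run_U hn hVd0 N
  rw [hFO0, mul_zero, add_zero, ← hL] at hU
  have hP := run_P hn hVd0 N
  rw [← hL] at hP
  have hG := run_G hn hd hβ hβ1 hθ0 T hVd N
  rw [hFO0, zero_add, ← hθdef, ← hL] at hG
  -- the end point inequality
  have h1 : run θ N (fun f C => L * FI f C + L * FO f C) f univ
      ≤ run θ N (fun f C => (L * (2 * (d : ℝ) ^ 2 * Real.sqrt (θ N))
          + 1 / L * (L ^ 2 * FP f C)) + L * ((d : ℝ) + 1) * FO f C) f univ := by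
    refine run_mono (d := d) θ N ?_ hVd0
    intro g D hg
    have h2 := mul_le_mul_of_nonneg_left (end_point (hthpos N) hg) hL0.le
    have h3 : 1 / L * (L ^ 2 * FP g D) = L * FP g D := by
      field_simp
    rw [h3]
    nlinarith
  rw [run_add θ N (fun f C => L * (2 * (d : ℝ) ^ 2 * Real.sqrt (θ N))
          + 1 / L * (L ^ 2 * FP f C)) (fun f C => L * ((d : ℝ) + 1) * FO f C),
    run_add θ N (fun _ _ => L * (2 * (d : ℝ) ^ 2 * Real.sqrt (θ N)))
          (fun f C => 1 / L * (L ^ 2 * FP f C)), run_const,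
    run_const_mul θ N (1 / L) (fun f C => L ^ 2 * FP f C),
    run_const_mul θ N (L * ((d : ℝ) + 1)) FO] at h1
  have h2 : run θ N FO f univ ≤ run θ N (fun f C => FO f C + L / θ N * FS f C) f univ := by
    refine run_mono (d := d) θ N ?_ hVd0
    intro g D _
    have h3 : 0 ≤ L / θ N * FS g D := mul_nonneg (by have := hthpos N; positivity) (hFInn g D)
    linarith
  have h3 := FS_univ_le hf
  have h4 : run θ N FO f univ ≤ 2 * (d : ℝ) ^ 2 * maxDerivNorm f ^ 2 / θ0 + 16 * (d : ℝ) * Er d β T := by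
    refine (h2.trans hG).trans ?_
    have h5 : 1 / θ0 * FS f univ ≤ 2 * (d : ℝ) ^ 2 * maxDerivNorm f ^ 2 / θ0 := by
      rw [one_div, inv_mul_eq_div]
      apply div_le_div_of_nonneg_right _ hθ0.le
      linarith
    have h6 : (L - 1) * Er d β T ≤ 16 * (d : ℝ) * Er d β T :=
      mul_le_mul_of_nonneg_right (by linarith) hEr
    linarith
  have hFI : 0 ≤ FI f univ := Finset.sum_nonneg (fun w _ => Iw_nonneg f w)
  have h5 : 1 / L * run θ N (fun f C => L ^ 2 * FP f C) f univ ≤ 1 / 8 * FI f univ := by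
    have h6 := hP.trans (FP_univ_le hf)
    have h7 : 1 / L * run θ N (fun f C => L ^ 2 * FP f C) f univ ≤ 1 / L * ((d : ℝ) * FI f univ) :=
      mul_le_mul_of_nonneg_left h6 (by positivity)
    refine h7.trans ?_
    rw [← mul_assoc]
    apply mul_le_mul_of_nonneg_right _ hFI
    rw [one_div, inv_mul_eq_div, div_le_iff₀ hL0]
    linarith
  have hX0 : 0 ≤ 2 * (d : ℝ) ^ 2 * maxDerivNorm f ^ 2 / θ0 + 16 * (d : ℝ) * Er d β T := by
    positivity
  have h6 : L * ((d : ℝ) + 1) * run θ N FO f univ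
      ≤ 32 * (d : ℝ) ^ 2 * (2 * (d : ℝ) ^ 2 * maxDerivNorm f ^ 2 / θ0 + 16 * (d : ℝ) * Er d β T) := by
    have h7 : L * ((d : ℝ) + 1) ≤ 32 * (d : ℝ) ^ 2 := by
      calc L * ((d : ℝ) + 1) ≤ 16 * d * (2 * d) :=
            mul_le_mul hN2 (by linarith) (by positivity) (by positivity)
        _ = 32 * (d : ℝ) ^ 2 := by ring
    calc L * ((d : ℝ) + 1) * run θ N FO f univ
        ≤ L * ((d : ℝ) + 1) *
          (2 * (d : ℝ) ^ 2 * maxDerivNorm f ^ 2 / θ0 + 16 * (d : ℝ) * Er d β T) :=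
          mul_le_mul_of_nonneg_left h4 (by positivity)
      _ ≤ _ := mul_le_mul_of_nonneg_right h7 hX0
  have h7 : L * (2 * (d : ℝ) ^ 2 * Real.sqrt (θ N)) ≤ 32 * (d : ℝ) ^ 3 * Real.sqrt (θ N) := by
    have hs := Real.sqrt_nonneg (θ N)
    calc L * (2 * (d : ℝ) ^ 2 * Real.sqrt (θ N)) ≤ 16 * d * (2 * (d : ℝ) ^ 2 * Real.sqrt (θ N)) :=
          mul_le_mul_of_nonneg_right hN2 (by positivity)
      _ = 32 * (d : ℝ) ^ 3 * Real.sqrt (θ N) := by ring
  have h8 := variance_le_FI f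
  linarith

end Pool.Agent.AA2
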