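import Mathlib
import Pool.Agent.AA2.Defs

/-!
AA2 module PARAM: numerics. `L = Real.log (2 d/V)`, `0 < V ≤ 1`, `d ≥ 1`, `β = V/(65536 d^7)`,
`T = ⌈186 L⌉₊`. `exp L = 2 d/V ≥ 2`, `L ≥ log 2 ≥ 0.69`.

* `par_err`: `Er d β T = 8 d^4 β + 46080 d^4/β^4 exp(-T/2)`; the first term is `V/(8192 d^3)`. The
  second: `exp(-T/2) ≤ exp(-93 L) = (V/(2d))^93 ≤ V^5/(2^93 d^35)` (as `V ≤ 1 ≤ d`) and
  `46080 * 65536^4 * d^28/V^4 * d^4 * V^5/(2^93 d^35) = 46080 * 2^64/2^93 * V/d^3 ≤ V/(8192 d^3)`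
  since `46080 * 8192 ≤ 2^29`.
* `par_fin`: from `V/(64 d^3) ≤ sqrt θN`, `θN ≤ θ0 exp(2 S log(16 d))`, `θ0 = 512 d^4 M2/V`
  (`M2 = M^2`) and `S = 1 + 2T ≤ 3 + 372 L ≤ 377 L`: square, `V^2/(4096 d^6) ≤ 512 d^4 M2/V
  exp(2 S log(16 d))`, so `M2 ≥ V^3/(2^21 d^10) exp(-2 S log(16 d))`, with
  `V^3/(2^21 d^10) ≥ (V/(2d))^21 = exp(-21 L)`, `log(16 d) ≤ 4 log(2 d)`,
  `21 L ≤ 31 L log (2d)` (`log (2d) ≥ log 2 > 0.69`): total
  `exp(-(31 + 8 * 377) L log(2d)) ≥ exp(-(4096 L log (2d)))`.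
-/

set_option linter.dupNamespace false

namespace Pool.Agent.AA2

open Finset

variable {d : ℕ} {V : ℝ}

/-- the entropy level -/
noncomputable def TT (d : ℕ) (V : ℝ) : ℕ := ⌈186 * Real.log (2 * (d : ℝ) / V)⌉₊

/-- the bias cut-off -/
noncomputable def bb (d : ℕ) (V : ℝ) : ℝ := V / (65536 * (d : ℝ) ^ 7)

lemma bb_pos (hd : 1 ≤ d) (hV : 0 < V) : 0 < bb d V := by
  have hd' : (0 : ℝ) < d := by exact_mod_cast hd
  unfold bb
  positivity

lemma bb_le_one (hd : 1 ≤ d) (hV1 : V ≤ 1) : bb d V ≤ 1 := by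
  have hd' : (1 : ℝ) ≤ d := by exact_mod_cast hd
  have h7 : (1 : ℝ) ≤ (d : ℝ) ^ 7 := one_le_pow₀ hd'
  unfold bb
  rw [div_le_one (by positivity)]
  linarith

private lemma log_two_le (hd : 1 ≤ d) (hV : 0 < V) (hV1 : V ≤ 1) :
    Real.log 2 ≤ Real.log (2 * (d : ℝ) / V) := by
  have hd' : (1 : ℝ) ≤ d := by exact_mod_cast hd
  apply Real.log_le_log (by norm_num)
  rw [le_div_iff₀ hV]
  nlinarith

private lemma exp_neg_mul (hd : 1 ≤ d) (hV : 0 < V) (m : ℕ) :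
    Real.exp (-((m : ℝ) * Real.log (2 * (d : ℝ) / V))) = (V / (2 * (d : ℝ))) ^ m := by
  have hd' : (0 : ℝ) < d := by exact_mod_cast hd
  rw [← mul_neg, Real.exp_nat_mul, Real.exp_neg, Real.exp_log (by positivity), inv_div]

theorem par_err (hd : 1 ≤ d) (hV : 0 < V) (hV1 : V ≤ 1) :
    Er d (bb d V) (TT d V) ≤ V / (4096 * (d : ℝ) ^ 3) := by
  have hd' : (1 : ℝ) ≤ d := by exact_mod_cast hd
  have hd0 : (0 : ℝ) < d := by linarith
  have h1 : 186 * Real.log (2 * (d : ℝ) / V) ≤ (TT d V : ℝ) := Nat.le_ceil _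
  have h2 : Real.exp (-((TT d V : ℝ) / 2)) ≤ (V / (2 * (d : ℝ))) ^ 93 := by
    have h := exp_neg_mul (d := d) (V := V) hd hV 93
    rw [← h]
    apply Real.exp_le_exp.2
    push_cast
    linarith
  have h3 : (V / (2 * (d : ℝ))) ^ 93 ≤ V ^ 5 / (2 ^ 93 * (d : ℝ) ^ 35) := by
    rw [div_pow, mul_pow]
    apply div_le_div₀ (by positivity) (pow_le_pow_of_le_one hV.le hV1 (by norm_num))
      (by positivity)
    exact mul_le_mul_of_nonneg_left (pow_le_pow_right₀ hd' (by norm_num)) (by positivity)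
  have e1 : 8 * (d : ℝ) ^ 4 * bb d V = V / (8192 * (d : ℝ) ^ 3) := by
    unfold bb
    field_simp
    norm_num
  have e2 : 46080 * (d : ℝ) ^ 4 / (bb d V) ^ 4 * (V ^ 5 / (2 ^ 93 * (d : ℝ) ^ 35)) =
      46080 / 2 ^ 29 * (V / (d : ℝ) ^ 3) := by
    unfold bb
    field_simp
    norm_num
  have hb := bb_pos hd hV
  have h4 : 46080 * (d : ℝ) ^ 4 / (bb d V) ^ 4 * Real.exp (-((TT d V : ℝ) / 2)) ≤
      46080 / 2 ^ 29 * (V / (d : ℝ) ^ 3) := by
    rw [← e2]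
    exact mul_le_mul_of_nonneg_left (h2.trans h3) (by positivity)
  have h5 : 46080 / 2 ^ 29 * (V / (d : ℝ) ^ 3) ≤ V / (8192 * (d : ℝ) ^ 3) := by
    have e3 : V / (8192 * (d : ℝ) ^ 3) = 1 / 8192 * (V / (d : ℝ) ^ 3) := by
      field_simp
    rw [e3]
    exact mul_le_mul_of_nonneg_right (by norm_num) (by positivity)
  have e4 : V / (4096 * (d : ℝ) ^ 3) = V / (8192 * (d : ℝ) ^ 3) + V / (8192 * (d : ℝ) ^ 3) := by
    field_simp
    norm_num
  unfold Er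
  rw [e1, e4]
  linarith

theorem par_fin (hd : 1 ≤ d) (hV : 0 < V) (hV1 : V ≤ 1) {M2 θN : ℝ} (hM : 0 ≤ M2)
    (h1 : V / (64 * (d : ℝ) ^ 3) ≤ Real.sqrt θN)
    (h2 : θN ≤ 512 * (d : ℝ) ^ 4 * M2 / V *
      Real.exp (2 * (1 + 2 * (TT d V : ℝ)) * Real.log (16 * d))) :
    Real.exp (-(4096 * Real.log (2 * d) * Real.log (2 * (d : ℝ) / V))) ≤ M2 := by
  have hd' : (1 : ℝ) ≤ d := by exact_mod_cast hd
  have hd0 : (0 : ℝ) < d := by linarith
  set L := Real.log (2 * (d : ℝ) / V) with hL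
  set E := 2 * (1 + 2 * (TT d V : ℝ)) * Real.log (16 * d) with hE
  have hl2 : (0.69 : ℝ) < Real.log 2 := by
    have := Real.log_two_gt_d9
    linarith
  have hLl : Real.log 2 ≤ L := log_two_le hd hV hV1
  have hL0 : 0.69 < L := lt_of_lt_of_le hl2 hLl
  have hld : Real.log 2 ≤ Real.log (2 * d) :=
    Real.log_le_log (by norm_num) (by linarith)
  have hT : (TT d V : ℝ) ≤ 186 * L + 1 := by
    have := Nat.ceil_lt_add_one (a := 186 * L) (by linarith)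
    unfold TT
    exact this.le
  have h16 : Real.log (16 * d) ≤ 4 * Real.log (2 * d) := by
    have e : 4 * Real.log (2 * d) = Real.log ((2 * d) ^ 4) := by
      rw [Real.log_pow]
      norm_num
    rw [e]
    apply Real.log_le_log (by positivity)
    have h4 : (d : ℝ) ≤ (d : ℝ) ^ 4 := by
      calc (d : ℝ) = (d : ℝ) ^ 1 := (pow_one _).symm
        _ ≤ (d : ℝ) ^ 4 := pow_le_pow_right₀ hd' (by norm_num)
    nlinarith
  have h16' : 0 ≤ Real.log (16 * d) := Real.log_nonneg (by linarith)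
  -- the main inequality
  have hs : 0 < Real.sqrt θN := lt_of_lt_of_le (by positivity) h1
  have hθ : 0 < θN := Real.sqrt_pos.1 hs
  have hsq : (V / (64 * (d : ℝ) ^ 3)) ^ 2 ≤ θN := by
    calc (V / (64 * (d : ℝ) ^ 3)) ^ 2 ≤ (Real.sqrt θN) ^ 2 :=
          pow_le_pow_left₀ (by positivity) h1 2
      _ = θN := Real.sq_sqrt hθ.le
  have h3 : V ^ 3 / (2 ^ 21 * (d : ℝ) ^ 10) ≤ M2 * Real.exp E := by
    have h4 := hsq.trans h2
    have h5 := mul_le_mul_of_nonneg_right h4 (show 0 ≤ V / (512 * (d : ℝ) ^ 4) by positivity)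
    have e1 : (V / (64 * (d : ℝ) ^ 3)) ^ 2 * (V / (512 * (d : ℝ) ^ 4)) =
        V ^ 3 / (2 ^ 21 * (d : ℝ) ^ 10) := by
      field_simp
      norm_num
    have e2 : 512 * (d : ℝ) ^ 4 * M2 / V * Real.exp E * (V / (512 * (d : ℝ) ^ 4)) =
        M2 * Real.exp E := by
      field_simp
    rw [e1, e2] at h5
    exact h5
  have h6 : Real.exp (-(21 * L)) ≤ V ^ 3 / (2 ^ 21 * (d : ℝ) ^ 10) := by
    have h := exp_neg_mul (d := d) (V := V) hd hV 21
    push_cast at h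
    rw [h, div_pow, mul_pow]
    apply div_le_div₀ (by positivity) (pow_le_pow_of_le_one hV.le hV1 (by norm_num))
      (by positivity)
    exact mul_le_mul_of_nonneg_left (pow_le_pow_right₀ hd' (by norm_num)) (by positivity)
  have h7 : Real.exp (-(21 * L)) * Real.exp (-E) ≤ M2 := by
    have h8 := mul_le_mul_of_nonneg_right (h6.trans h3) (Real.exp_pos (-E)).le
    have e9 : M2 * Real.exp E * Real.exp (-E) = M2 := by
      rw [mul_assoc, ← Real.exp_add, add_neg_cancel, Real.exp_zero, mul_one]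
    rwa [e9] at h8
  refine le_trans ?_ h7
  rw [← Real.exp_add]
  apply Real.exp_le_exp.2
  set l := Real.log (2 * (d : ℝ)) with hl
  have hl0 : 0.69 < l := lt_of_lt_of_le hl2 hld
  have hS : 2 * (1 + 2 * (TT d V : ℝ)) ≤ 754 * L := by linarith
  have hE' : E ≤ 754 * L * (4 * l) := by
    rw [hE]
    exact mul_le_mul hS h16 h16' (by positivity)
  have h21 : 21 * L ≤ 31 * (l * L) := by nlinarith
  nlinarith [mul_pos (show (0 : ℝ) < l by linarith) (show (0 : ℝ) < L by linarith)]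

end Pool.Agent.AA2
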