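import Mathlib
import Pool.Agent.AA2.Defs

/-!
AA2 module TIME: the number of steps and the growth of the thresholds.

* `exists_N`: `1 < lam n ≤ 2` for `n ≥ 1`; take the least `N` with `8 d ≤ lam n ^ N`
  (`Nat.find`, exists since `lam n ^ k → ∞`, e.g. `one_lt` and `pow_unbounded_of_one_lt`); `N ≥ 1` as
  `8 d ≥ 8 > 1`, and `lam n ^ (N-1) < 8 d` gives `lam n ^ N ≤ 2 * 8 d`.
* `th_le`: `1 + lam n * S/(n+1) = 1 + S/n ≤ exp (S/n)`, so `th n θ0 S N ≤ θ0 exp (S N/n)`, and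
  `N log (lam n) ≤ log (16 d)` with `log (lam n) = log (1 + 1/n) ≥ 1/(n+1) ≥ 1/(2n)`
  (`Real.one_sub_inv_le_log_of_pos`: `1 - (lam n)⁻¹ = 1/(n+1)`), so `N/n ≤ 2 log (16 d)`.
-/

set_option linter.dupNamespace false

namespace Pool.Agent.AA2

open Finset

variable {n d : ℕ}

lemma exists_N (hn : 1 ≤ n) (hd : 1 ≤ d) :
    ∃ N : ℕ, 8 * (d : ℝ) ≤ lam n ^ N ∧ lam n ^ N ≤ 16 * (d : ℝ) := by
  classical
  have hnR : (1 : ℝ) ≤ n := by exact_mod_cast hn
  have hdR : (1 : ℝ) ≤ d := by exact_mod_cast hd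
  have hn0 : (0 : ℝ) < n := by linarith
  have h1 : 1 < lam n := by
    unfold lam
    rw [lt_div_iff₀ hn0]
    linarith
  have h2 : lam n ≤ 2 := by
    unfold lam
    rw [div_le_iff₀ hn0]
    linarith
  have hex : ∃ N : ℕ, 8 * (d : ℝ) ≤ lam n ^ N := by
    obtain ⟨N, hN⟩ := pow_unbounded_of_one_lt (8 * (d : ℝ)) h1
    exact ⟨N, hN.le⟩
  refine ⟨Nat.find hex, Nat.find_spec hex, ?_⟩
  have hpos : Nat.find hex ≠ 0 := by
    intro h0
    have := Nat.find_spec hex
    rw [h0, pow_zero] at this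
    linarith
  obtain ⟨k, hk⟩ := Nat.exists_eq_succ_of_ne_zero hpos
  have hlt : ¬ (8 * (d : ℝ) ≤ lam n ^ k) := Nat.find_min hex (by rw [hk]; exact Nat.lt_succ_self k)
  push Not at hlt
  rw [hk, Nat.succ_eq_add_one, pow_succ]
  have h3 : 0 ≤ lam n ^ k := by positivity
  nlinarith

lemma th_le (hn : 1 ≤ n) (hd : 1 ≤ d) {θ0 S : ℝ} (hθ : 0 < θ0) (hS : 0 ≤ S) {N : ℕ}
    (hN : lam n ^ N ≤ 16 * (d : ℝ)) :
    th n θ0 S N ≤ θ0 * Real.exp (2 * S * Real.log (16 * d)) := by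
  have hnR : (1 : ℝ) ≤ n := by exact_mod_cast hn
  have hdR : (1 : ℝ) ≤ d := by exact_mod_cast hd
  have hn0 : (0 : ℝ) < n := by linarith
  have hl : 0 < lam n := by
    unfold lam
    positivity
  have h1 : (1 + lam n * S / ((n : ℝ) + 1)) = S / n + 1 := by
    unfold lam
    field_simp
    ring
  have h2 : (S / n + 1) ≤ Real.exp (S / n) := Real.add_one_le_exp _
  have h3 : 0 ≤ S / n := by positivity
  have h4 : (S / n + 1) ^ N ≤ Real.exp (S / n * N) := by
    calc (S / n + 1) ^ N ≤ (Real.exp (S / n)) ^ N := pow_le_pow_left₀ (by linarith) h2 N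
      _ = Real.exp (S / n * N) := by
        rw [← Real.exp_nat_mul]
        ring_nf
  -- N / n ≤ 2 log (16 d)
  have h5 : (N : ℝ) * Real.log (lam n) ≤ Real.log (16 * d) := by
    rw [← Real.log_pow]
    exact Real.log_le_log (by positivity) hN
  have h6 : 1 / (2 * (n : ℝ)) ≤ Real.log (lam n) := by
    have h7 := Real.one_sub_inv_le_log_of_pos hl
    have h8 : 1 - (lam n)⁻¹ = 1 / ((n : ℝ) + 1) := by
      unfold lam
      field_simp
      ring
    rw [h8] at h7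
    have h9 : 1 / (2 * (n : ℝ)) ≤ 1 / ((n : ℝ) + 1) := by
      apply one_div_le_one_div_of_le (by positivity)
      linarith
    linarith
  have h10 : (N : ℝ) * (1 / (2 * (n : ℝ))) ≤ Real.log (16 * d) :=
    le_trans (mul_le_mul_of_nonneg_left h6 (Nat.cast_nonneg N)) h5
  have h11 : (N : ℝ) / n ≤ 2 * Real.log (16 * d) := by
    have : (N : ℝ) * (1 / (2 * (n : ℝ))) = (N : ℝ) / n / 2 := by
      field_simp
    rw [this] at h10
    linarith
  have h12 : S / n * N ≤ 2 * S * Real.log (16 * d) := by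
    have : S / n * N = S * ((N : ℝ) / n) := by
      field_simp
    rw [this]
    calc S * ((N : ℝ) / n) ≤ S * (2 * Real.log (16 * d)) := mul_le_mul_of_nonneg_left h11 hS
      _ = 2 * S * Real.log (16 * d) := by ring
  unfold th
  rw [h1]
  apply mul_le_mul_of_nonneg_left _ hθ.le
  exact le_trans h4 (Real.exp_le_exp.2 h12)

end Pool.Agent.AA2
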