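import Mathlib
import Pool.Agent.AA2.Game
import Pool.Agent.AA2.Time
import Pool.Agent.AA2.Param

/-!
AA2 module MAIN.

`V = variance f`, `0 < V ≤ 1` (`variance_le_one`), so `n ≥ 1` (for `n = 0` the variance is `0`;
`variance_le_FI`, the sum over `Fin 0` is empty). `M = maxDerivNorm f > 0` (`V ≤ FI f univ`, `Iw ≤ M^2`).
`θ0 = 512 d^4 M^2/V > M^2`. `N` from `exists_N`. `end_game` with `β = bb d V`, `T = TT d V`:
`32 d^2 * 2 d^2 M^2/θ0 = V/8`, `32 d^2 * 16 d Er ≤ V/8` (`par_err`). So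
`5/8 V ≤ 32 d^3 sqrt θN`, i.e. `V/(64 d^3) ≤ sqrt θN`. `th_le`, `par_fin` with `M2 = M^2`. Finally
`exp(-(2048 x)) ≤ M` from `exp(-(4096 x)) = exp(-(2048 x))^2 ≤ M^2` (`abs_le_of_sq_le_sq'`,
`pow_le_pow_left` or `Real.sqrt`).
-/

set_option linter.dupNamespace false

namespace Pool.Agent.AA2

open Finset Pool.Agent.Helper11.Cube Pool.Agent.Helper11.AA Pool.Agent.SUB Pool.Agent.QAA

variable {n d : ℕ}

theorem quad_bound (hd : 1 ≤ d) {f : Cube n → ℝ} (hf : Bdd d f) (hV : 0 < variance f) :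
    Real.exp (-(2048 * Real.log (2 * (d : ℝ)) * Real.log (2 * (d : ℝ) / variance f)))
      ≤ maxDerivNorm f := by
  have hd1 : (1 : ℝ) ≤ d := by exact_mod_cast hd
  have hd0 : (0 : ℝ) < d := by linarith
  have hV1 := variance_le_one hf
  have hVFI := variance_le_FI f
  have hn : 1 ≤ n := by
    rcases Nat.eq_zero_or_pos n with h | h
    · subst h
      exfalso
      have h1 : FI f univ = 0 := by
        unfold FI
        simp
      rw [h1] at hVFI
      linarith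
    · exact h
  obtain ⟨V, hVd⟩ : ∃ V, V = variance f := ⟨_, rfl⟩
  rw [← hVd] at hV hV1 hVFI ⊢
  obtain ⟨M, hM⟩ : ∃ M, M = maxDerivNorm f := ⟨_, rfl⟩
  have hMnn : 0 ≤ M := by rw [hM]; exact maxDerivNorm_nonneg f
  have hMpos : 0 < M := by
    rcases hMnn.eq_or_lt with h | h
    · exfalso
      have h1 : FI f univ ≤ 0 := by
        unfold FI
        apply Finset.sum_nonpos
        intro w _
        have h2 := Iw_le_max f w
        rw [← hM, ← h] at h2
        simpa using h2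
      linarith
    · exact h
  rw [← hM]
  set β := bb d V with hβ
  set T := TT d V with hT
  set θ0 : ℝ := 512 * (d : ℝ) ^ 4 * M ^ 2 / V with hθ0
  have hM2 : 0 < M ^ 2 := by positivity
  have hd4 : (1 : ℝ) ≤ (d : ℝ) ^ 4 := one_le_pow₀ hd1
  have hθ : M ^ 2 < θ0 := by
    rw [hθ0, lt_div_iff₀ hV]
    have h1 : M ^ 2 * V ≤ M ^ 2 * 1 := mul_le_mul_of_nonneg_left hV1 hM2.le
    have h2 : M ^ 2 * 1 < 512 * (d : ℝ) ^ 4 * M ^ 2 := by nlinarith
    linarith
  obtain ⟨N, hN1, hN2⟩ := exists_N (n := n) hn hd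
  have hβ0 : 0 < β := bb_pos hd hV
  have hβ1 : β ≤ 1 := bb_le_one hd hV1
  have hgame := end_game hn hd hf hβ0 hβ1 T N (by rw [← hM]; exact hθ) hN1 hN2
  rw [← hVd, ← hM] at hgame
  have herr := par_err hd hV hV1
  rw [← hβ, ← hT] at herr
  set θN := th n θ0 (1 + 2 * (T : ℝ)) N with hθN
  have h1 : 32 * (d : ℝ) ^ 2 * (2 * (d : ℝ) ^ 2 * M ^ 2 / θ0 + 16 * (d : ℝ) * Er d β T)
      ≤ V / 8 + V / 8 := by
    rw [mul_add]
    apply add_le_add
    · apply le_of_eq
      rw [hθ0]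
      field_simp
      norm_num
    · calc 32 * (d : ℝ) ^ 2 * (16 * (d : ℝ) * Er d β T)
          ≤ 32 * (d : ℝ) ^ 2 * (16 * (d : ℝ) * (V / (4096 * (d : ℝ) ^ 3))) := by
            gcongr
        _ = V / 8 := by
            field_simp
            norm_num
  have h2 : V / (64 * (d : ℝ) ^ 3) ≤ Real.sqrt θN := by
    rw [div_le_iff₀ (by positivity)]
    nlinarith
  have hθ0pos : 0 < θ0 := lt_trans hM2 hθ
  have h3 := th_le (n := n) hn hd hθ0pos (S := 1 + 2 * (T : ℝ)) (by positivity) hN2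
  have h4 := par_fin hd hV hV1 hM2.le h2 h3
  have h5 : Real.exp (-(4096 * Real.log (2 * d) * Real.log (2 * (d : ℝ) / V)))
      = Real.exp (-(2048 * Real.log (2 * d) * Real.log (2 * (d : ℝ) / V))) ^ 2 := by
    rw [← Real.exp_nat_mul]
    congr 1
    push_cast
    ring
  rw [h5] at h4
  exact (sq_le_sq₀ (Real.exp_pos _).le hMnn).1 h4

end Pool.Agent.AA2
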